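import Pool.Agent.H37.AS.Rho
import Pool.Agent.H36.EK.Filt

/-!
# FinAS : finite cohomology of Artin-Schreier extensions of dg algebras
-/

set_option autoImplicit false

open NC

noncomputable section

namespace NC.ASX

variable {k : Type} [Field k] {A B : DGA k} {q : ℕ} (S : ASX A B q)

theorem low_zero : S.low 0 = ⊥ := by
  rw [eq_bot_iff]
  refine Submodule.span_le.2 ?_
  rintro x ⟨a, j, hj, rfl⟩
  omega

theorem low_top : S.low q = ⊤ := by
  rw [eq_top_iff]
  intro b _
  rw [← S.cL_spec b]
  exact (S.low q).sum_mem fun j _ => S.mem_low j.2 _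

theorem i_mul_low {n : ℕ} {x : B.V} (a : A.V) (h : x ∈ S.low n) : S.i.f a * x ∈ S.low n := by
  induction h using Submodule.span_induction with
  | mem x hx =>
    obtain ⟨b, j, hj, rfl⟩ := hx
    rw [← mul_assoc, ← S.i_mul]
    exact S.mem_low hj _
  | zero =>
    rw [mul_zero]
    exact (S.low _).zero_mem
  | add x y _ _ hx hy =>
    rw [mul_add]
    exact (S.low _).add_mem hx hy
  | smul c x _ hx =>
    rw [mul_smul_comm]
    exact (S.low _).smul_mem c hx

theorem low_indep {n : ℕ} (hn : n < q) {a : A.V} (h : S.i.f a * S.t ^ n ∈ S.low n) : a = 0 := by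
  obtain ⟨b, hb⟩ := S.exists_of_low h
  have h5 := S.left_uniq (a := fun j => if j = n then a else if j < n then - b j else 0) (by
    rw [← Finset.sum_subset (Finset.range_subset_range.2 (Nat.succ_le_of_lt hn)) (fun j _ hj => by
      rw [Finset.mem_range] at hj
      rw [if_neg (by omega), if_neg (by omega), map_zero, zero_mul]), Finset.sum_range_succ,
      if_pos rfl, hb, ← Finset.sum_add_distrib]
    refine Finset.sum_eq_zero fun j hj => ?_
    rw [Finset.mem_range] at hj
    rw [if_neg (by omega), if_pos hj, map_neg, neg_mul]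
    abel) n hn
  rwa [if_pos rfl] at h5

/-- the map `a ↦ a t^n` -/
def jn (n : ℕ) : A.V →ₗ[k] B.V where
  toFun a := S.i.f a * S.t ^ n
  map_add' a b := by rw [map_add, add_mul]
  map_smul' c a := by rw [map_smul, smul_mul_assoc, RingHom.id_apply]

include S in
/-- **finite cohomology passes to Artin-Schreier extensions** -/
theorem finH (hA : A.toSD.FinH) : B.toSD.FinH := by
  refine EK.finH_of_filt hA q S.low S.jn S.low_zero S.low_top
    (fun n _ => S.low_mono (Nat.le_succ n)) (fun n _ a => S.mem_low (Nat.lt_succ_self n) a)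
    (fun n _ x hx => ?_) (fun n _ a => ?_) (fun n hn a ha => S.low_indep hn ha)
  · obtain ⟨a, rfl⟩ := S.exists_of_low hx
    refine ⟨a n, ?_⟩
    change (∑ j ∈ Finset.range (n + 1), S.i.f (a j) * S.t ^ j) - S.i.f (a n) * S.t ^ n ∈ S.low n
    rw [Finset.sum_range_succ, add_sub_cancel_right]
    exact (S.low n).sum_mem fun j hj => S.mem_low (Finset.mem_range.1 hj) _
  · change B.D (S.i.f a * S.t ^ n) - S.i.f (A.D a) * S.t ^ n ∈ S.low n
    rw [B.D_mul', ← S.i.D, add_sub_cancel_left, ← S.i.toHom.E]
    exact S.i_mul_low _ (S.D_pow_low n)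

end NC.ASX
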