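import Pool.Agent.H34.TE.LnkC
import Pool.Agent.H34.TE.FinAS
import Pool.Agent.H55.ED.LB

/-!
# AsxX : the dg algebra of the surface as Artin-Schreier extension of `AE ⊗ AE`
-/

set_option autoImplicit false

open NC
open scoped TensorProduct

noncomputable section

namespace EK.SurR

open H36.NX

variable {q : ℕ} {k : Type} [Field k] {R : Type} [CommRing R] [Algebra k R]
  {K : Type} [CommRing K] [Algebra k K] {C : CurR q k R} (W : SurR C K) {p : ℕ} (hQ : QP p q k)

/-- the sign of an entry, in `k` -/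
def sk (k : Type) [Field k] (a b : IX) : k :=
  if Even (((b.1.2 : ℕ) : ℤ) - ((a.1.2 : ℕ) : ℤ)) then 1 else (if b.1.1 = 0 then 1 else -1)

theorem sk_ne (a b : IX) : sk k a b ≠ 0 := by
  unfold sk
  split_ifs
  · exact one_ne_zero
  · exact one_ne_zero
  · exact neg_ne_zero.2 one_ne_zero

theorem isLnk : W.IsLnk hQ (W.iXl hQ) (sk k) := by
  intro x y a b
  rw [iXl_tmul]
  have h : algebraMap k K (sk k a b) = sg a b := by
    unfold sk sg
    split_ifs <;> simp
  rw [h]

theorem tX_pow_eq (n : ℕ) : (W.tX hQ) ^ n = W.tE hQ n := m_ext _ (by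
  rw [mv_tX_pow, mv_tE]
  rfl)

/-- **the dg algebra of the surface is an Artin-Schreier extension of `AE ⊗ AE`** -/
def asxX : ASX (DGA.tens C.AE.toDGA C.AE.toDGA) (W.AX hQ).toDGA q where
  i := W.iX hQ
  i_one := W.iX_one hQ
  t := W.tX hQ
  P_t := W.tX_P hQ
  δ := dlX C
  comm := fun a => by
    have h := W.tX_comm hQ a
    exact (sub_eq_iff_eq_add'.1 h)
  η := etaX C
  D_t := W.D_tX hQ
  φ := phX C hQ.cast_eq
  t_pow := W.tX_pow hQ
  left_bij := by
    have key : ∀ a : Fin q → (DGA.tens C.AE.toDGA C.AE.toDGA).V,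
        ∑ j : Fin q, (W.iX hQ).f (a j) * W.tX hQ ^ (j : ℕ) =
          ∑ e : Fin q, (W.AX hQ).mul (W.iXl hQ (a e)) (W.tE hQ e) := by
      intro a
      refine Finset.sum_congr rfl fun j _ => ?_
      rw [tX_pow_eq]
      rfl
    constructor
    · intro a b hab
      have hab' : ∑ j : Fin q, (W.iX hQ).f (a j) * W.tX hQ ^ (j : ℕ) =
          ∑ j : Fin q, (W.iX hQ).f (b j) * W.tX hQ ^ (j : ℕ) := hab
      obtain ⟨z, -, hz⟩ := W.left_basis hQ (W.isLnk hQ) sk_ne
        (∑ j : Fin q, (W.iX hQ).f (a j) * W.tX hQ ^ (j : ℕ))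
      exact (hz a (key a)).trans (hz b (hab'.trans (key b))).symm
    · intro x
      obtain ⟨z, hz, -⟩ := W.left_basis hQ (W.isLnk hQ) sk_ne x
      exact ⟨z, (key z).trans hz.symm⟩

/-- finite cohomology of the dg algebra of the surface -/
theorem finH_AX (h : C.AE.toSD.FinH) : (W.AX hQ).toSD.FinH :=
  (W.asxX hQ).finH (SD.FinH.tens h h)

end EK.SurR
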