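import Pool.Agent.H16.NC.CommS
import Pool.Agent.H16.NC.PF

/-!
# The super tensor product of dg algebras

`DGA.tens A B` : the dg algebra on `A ⊗ B` with `(a ⊗ b)(a' ⊗ b') = (-1)^(|b||a'|) a a' ⊗ b b'`.
Two commuting structures (over `A` and over `B`) on `N` give a structure over `DGA.tens A B`:
`LA.join`, `RA.join`, `Bi.join`.  `BMod.out X Y` is the outer tensor product of two bimodules.
-/

set_option autoImplicit false

open scoped TensorProduct

noncomputable section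

namespace NC

variable {k : Type} [Field k]

section

variable {A B : DGA k} {N : SD k}

/-- the operator of the joined left action: `(a ⊗ b) n = a (b n)` -/
def jL (x : LA A N) (y : LA B N) : A.V ⊗[k] B.V →ₗ[k] N.V →ₗ[k] N.V :=
  TensorProduct.lift (LinearMap.mk₂ k (fun a b => x.act a ∘ₗ y.act b)
    (fun a a' b => by ext; simp) (fun c a b => by ext; simp)
    (fun a b b' => by ext; simp) (fun c a b => by ext; simp))

@[simp] theorem jL_tmul (x : LA A N) (y : LA B N) (a : A.V) (b : B.V) (n : N.V) :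
    jL x y (a ⊗ₜ b) n = x.act a (y.act b n) := rfl

/-- the operator of the joined right action: `n (a ⊗ b) = (n a) b` -/
def jR (x : RA A N) (y : RA B N) : N.V →ₗ[k] A.V ⊗[k] B.V →ₗ[k] N.V :=
  (TensorProduct.lift (LinearMap.mk₂ k (fun a b => y.act.flip b ∘ₗ x.act.flip a)
    (fun a a' b => by ext; simp) (fun c a b => by ext; simp)
    (fun a b b' => by ext; simp) (fun c a b => by ext; simp))).flip

@[simp] theorem jR_tmul (x : RA A N) (y : RA B N) (n : N.V) (a : A.V) (b : B.V) :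
    jR x y n (a ⊗ₜ b) = y.act (x.act n a) b := rfl

theorem jL_P (x : LA A N) (y : LA B N) (t : A.V ⊗[k] B.V) (n : N.V) :
    N.P (jL x y t n) = jL x y (SD.tP A.toSD B.toSD t) (N.P n) +
      jL x y (t - SD.tP A.toSD B.toSD t) (n - N.P n) := by
  refine tens_ext (f := N.P ∘ₗ (jL x y).flip n)
    (g := (jL x y).flip (N.P n) ∘ₗ SD.tP A.toSD B.toSD +
      (jL x y).flip (n - N.P n) ∘ₗ (LinearMap.id - SD.tP A.toSD B.toSD)) (fun a b => ?_) t
  simp only [LinearMap.comp_apply, LinearMap.flip_apply, LinearMap.add_apply,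
    LinearMap.sub_apply, LinearMap.id_apply, SD.tP_tmul, jL_tmul, map_add, map_sub, x.P_act,
    y.P_act]
  abel

theorem jL_D (x : LA A N) (y : LA B N) (t : A.V ⊗[k] B.V) (n : N.V) :
    N.D (jL x y t n) = jL x y (SD.tD A.toSD B.toSD t) n +
      jL x y ((A.toSD.tens B.toSD).E t) (N.D n) := by
  refine tens_ext (f := N.D ∘ₗ (jL x y).flip n)
    (g := (jL x y).flip n ∘ₗ SD.tD A.toSD B.toSD +
      (jL x y).flip (N.D n) ∘ₗ (A.toSD.tens B.toSD).E) (fun a b => ?_) t
  have hE : (A.toSD.tens B.toSD).E (a ⊗ₜ b) = A.E a ⊗ₜ B.E b := SD.tens_E _ _ a b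
  simp only [LinearMap.comp_apply, LinearMap.flip_apply, LinearMap.add_apply,
    SD.tD_tmul, jL_tmul, map_add, x.D_act, y.D_act]
  rw [hE, jL_tmul]
  abel

theorem jR_P (x : RA A N) (y : RA B N) (n : N.V) (t : A.V ⊗[k] B.V) :
    N.P (jR x y n t) = jR x y (N.P n) (SD.tP A.toSD B.toSD t) +
      jR x y (n - N.P n) (t - SD.tP A.toSD B.toSD t) := by
  refine tens_ext (f := N.P ∘ₗ jR x y n)
    (g := jR x y (N.P n) ∘ₗ SD.tP A.toSD B.toSD +
      jR x y (n - N.P n) ∘ₗ (LinearMap.id - SD.tP A.toSD B.toSD)) (fun a b => ?_) t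
  simp only [LinearMap.comp_apply, LinearMap.add_apply,
    LinearMap.sub_apply, LinearMap.id_apply, SD.tP_tmul, jR_tmul, map_add, map_sub, x.P_act,
    y.P_act]
  abel

theorem jR_D (x : RA A N) (y : RA B N) (n : N.V) (t : A.V ⊗[k] B.V) :
    N.D (jR x y n t) = jR x y (N.D n) t + jR x y (N.E n) (SD.tD A.toSD B.toSD t) := by
  refine tens_ext (f := N.D ∘ₗ jR x y n)
    (g := jR x y (N.D n) + jR x y (N.E n) ∘ₗ SD.tD A.toSD B.toSD) (fun a b => ?_) t
  simp only [LinearMap.comp_apply, LinearMap.add_apply,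
    SD.tD_tmul, jR_tmul, map_add, x.D_act, y.D_act, x.E_act]
  abel

/-- multiplication of `A ⊗ B` -/
def tmulT (A B : DGA k) : A.V ⊗[k] B.V →ₗ[k] A.V ⊗[k] B.V →ₗ[k] A.V ⊗[k] B.V :=
  jL (A.diag.l.tensL B.toSD) (B.diag.l.tensR A.toSD)

theorem tmulT_tmul (a : A.V) (b : B.V) (a' : A.V) (b' : B.V) :
    tmulT A B (a ⊗ₜ b) (a' ⊗ₜ b') = (a * a') ⊗ₜ (B.P b * b') +
      (a * A.E a') ⊗ₜ ((b - B.P b) * b') := rfl

theorem tmulT_one_left (a : A.V) (a' : A.V) (b' : B.V) :
    tmulT A B (a ⊗ₜ 1) (a' ⊗ₜ b') = (a * a') ⊗ₜ b' := by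
  have h : B.P (1 : B.V) = 1 := B.P_one
  rw [tmulT_tmul, h, sub_self, zero_mul, TensorProduct.tmul_zero, add_zero, one_mul]

theorem tmulT_one_right (a : A.V) (b b' : B.V) :
    tmulT A B (a ⊗ₜ b) (1 ⊗ₜ b') = a ⊗ₜ (b * b') := by
  rw [tmulT_tmul, A.E_one, mul_one, ← TensorProduct.tmul_add, ← add_mul]
  congr 2
  abel

theorem jL_mul {x : LA A N} {y : LA B N} (h : LL x y) (t t' : A.V ⊗[k] B.V) (n : N.V) :
    jL x y (tmulT A B t t') n = jL x y t (jL x y t' n) := by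
  refine tens_ext (f := (jL x y).flip n ∘ₗ (tmulT A B).flip t')
    (g := (jL x y).flip (jL x y t' n)) (fun a b => ?_) t
  change jL x y (tmulT A B (a ⊗ₜ b) t') n = jL x y (a ⊗ₜ b) (jL x y t' n)
  refine tens_ext (f := (jL x y).flip n ∘ₗ tmulT A B (a ⊗ₜ b))
    (g := jL x y (a ⊗ₜ b) ∘ₗ (jL x y).flip n) (fun a' b' => ?_) t'
  change jL x y (tmulT A B (a ⊗ₜ b) (a' ⊗ₜ b')) n = x.act a (y.act b (x.act a' (y.act b' n)))
  have h1 := h.symm b a' (y.act b' n)
  rw [tmulT_tmul, map_add, LinearMap.add_apply, jL_tmul, jL_tmul, h1, x.mul_act, x.mul_act,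
    y.mul_act, y.mul_act, map_add]

theorem jR_mul {x : RA A N} {y : RA B N} (h : RR x y) (n : N.V) (t t' : A.V ⊗[k] B.V) :
    jR x y (jR x y n t) t' = jR x y n (tmulT A B t t') := by
  refine tens_ext (f := (jR x y).flip t' ∘ₗ jR x y n)
    (g := jR x y n ∘ₗ (tmulT A B).flip t') (fun a b => ?_) t
  change jR x y (jR x y n (a ⊗ₜ b)) t' = jR x y n (tmulT A B (a ⊗ₜ b) t')
  refine tens_ext (f := jR x y (jR x y n (a ⊗ₜ b)))
    (g := jR x y n ∘ₗ tmulT A B (a ⊗ₜ b)) (fun a' b' => ?_) t'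
  change y.act (x.act (y.act (x.act n a) b) a') b' =
    jR x y n (tmulT A B (a ⊗ₜ b) (a' ⊗ₜ b'))
  have h1 := h (x.act n a) a' b
  rw [tmulT_tmul, map_add, jR_tmul, jR_tmul, h1, map_add, LinearMap.add_apply,
    y.act_mul, y.act_mul, x.act_mul, x.act_mul]
  simp only [SD.E_apply, mul_sub, mul_add, map_sub, map_add, sub_mul, add_mul,
    LinearMap.sub_apply, LinearMap.add_apply]
  abel

end

/-- **the super tensor product of dg algebras** -/
def DGA.tens (A B : DGA k) : DGA k where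
  toSD := A.toSD.tens B.toSD
  mul := tmulT A B
  one := (1 : A.V) ⊗ₜ[k] (1 : B.V)
  one_mul' := fun v => by
    refine tens_ext (f := tmulT A B ((1 : A.V) ⊗ₜ[k] (1 : B.V))) (g := LinearMap.id)
      (fun a b => ?_) v
    rw [tmulT_one_left, one_mul]; rfl
  mul_one' := fun v => by
    refine tens_ext (f := (tmulT A B).flip ((1 : A.V) ⊗ₜ[k] (1 : B.V))) (g := LinearMap.id)
      (fun a b => ?_) v
    rw [LinearMap.flip_apply, tmulT_one_right, mul_one]; rfl
  mul_assoc' := fun u v w => jL_mul (LL.tensLR A.diag.l B.diag.l) u v w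
  P_one := by
    change SD.tP A.toSD B.toSD _ = _
    have h : B.P (1 : B.V) = 1 := B.P_one
    have h' : A.P (1 : A.V) = 1 := A.P_one
    rw [SD.tP_tmul, h, h', sub_self, TensorProduct.zero_tmul, add_zero]
  P_mul := fun u v => jL_P _ _ u v
  D_mul := fun u v => jL_D _ _ u v

section

variable {A B A' B' : DGA k} {N : SD k}

theorem DGA.tens_mul_tmul (a : A.V) (b : B.V) (a' : A.V) (b' : B.V) :
    (DGA.tens A B).mul (a ⊗ₜ b) (a' ⊗ₜ b') = (a * a') ⊗ₜ (B.P b * b') +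
      (a * A.E a') ⊗ₜ ((b - B.P b) * b') := rfl

/-- joined left action -/
def LA.join (x : LA A N) (y : LA B N) (h : LL x y) : LA (DGA.tens A B) N where
  act := jL x y
  mul_act := fun t t' n => jL_mul h t t' n
  P_act := fun t n => jL_P x y t n
  D_act := fun t n => jL_D x y t n

/-- joined right action -/
def RA.join (x : RA A N) (y : RA B N) (h : RR x y) : RA (DGA.tens A B) N where
  act := jR x y
  act_mul := fun n t t' => jR_mul h n t t'
  P_act := fun n t => jR_P x y n t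
  D_act := fun n t => jR_D x y n t

@[simp] theorem LA.join_act (x : LA A N) (y : LA B N) (h : LL x y) (a : A.V) (b : B.V) (n : N.V) :
    (x.join y h).act (a ⊗ₜ b : A.V ⊗[k] B.V) n = x.act a (y.act b n) := rfl

@[simp] theorem RA.join_act (x : RA A N) (y : RA B N) (h : RR x y) (n : N.V) (a : A.V) (b : B.V) :
    (x.join y h).act n (a ⊗ₜ b : A.V ⊗[k] B.V) = y.act (x.act n a) b := rfl

/-- joined bimodule structure -/
def Bi.join (x : Bi A A' N) (y : Bi B B' N) (h : Comm x y) :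
    Bi (DGA.tens A B) (DGA.tens A' B') N where
  l := x.l.join y.l h.ll
  r := x.r.join y.r h.rr
  lr := fun t n t' => by
    refine tens_ext (f := (jR x.r y.r).flip t' ∘ₗ (jL x.l y.l).flip n)
      (g := (jL x.l y.l).flip (jR x.r y.r n t')) (fun a b => ?_) t
    change jR x.r y.r (jL x.l y.l (a ⊗ₜ b) n) t' = jL x.l y.l (a ⊗ₜ b) (jR x.r y.r n t')
    refine tens_ext (f := jR x.r y.r (jL x.l y.l (a ⊗ₜ b) n))
      (g := jL x.l y.l (a ⊗ₜ b) ∘ₗ jR x.r y.r n) (fun a' b' => ?_) t'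
    change y.r.act (x.r.act (x.l.act a (y.l.act b n)) a') b' =
      x.l.act a (y.l.act b (y.r.act (x.r.act n a') b'))
    rw [x.lr, h.rl b n a', h.lr a _ b', y.lr]

/-- the outer tensor product of bimodule structures -/
def Bi.out {X Y : SD k} (x : Bi A A' X) (y : Bi B B' Y) :
    Bi (DGA.tens A B) (DGA.tens A' B') (X.tens Y) :=
  Bi.join (x.tensL Y) (y.tensR X)
    ⟨LL.tensLR x.l y.l, LR.tensLR x.l y.r, LR.tensRL y.l x.r, (RR.tensRL x.r y.r).symm⟩

/-- **the outer tensor product of bimodules** -/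
def BMod.out (X : BMod A A') (Y : BMod B B') : BMod (DGA.tens A B) (DGA.tens A' B') where
  N := X.N.tens Y.N
  b := X.b.out Y.b
  one_l := fun v => by
    refine tens_ext (f := (X.b.out Y.b).l.act ((1 : A.V) ⊗ₜ[k] (1 : B.V))) (g := LinearMap.id)
      (fun x y => ?_) v
    change jL (X.b.l.tensL Y.N) (Y.b.l.tensR X.N) ((1 : A.V) ⊗ₜ[k] (1 : B.V)) (x ⊗ₜ y) = x ⊗ₜ y
    have h : B.P (1 : B.V) = 1 := B.P_one
    rw [jL_tmul, LA.tensR_act, h, sub_self, map_zero, LinearMap.zero_apply,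
      TensorProduct.tmul_zero, add_zero, LA.tensL_act, Y.one_l, X.one_l]
  r_one := fun v => by
    refine tens_ext (f := (X.b.out Y.b).r.act.flip ((1 : A'.V) ⊗ₜ[k] (1 : B'.V)))
      (g := LinearMap.id) (fun x y => ?_) v
    change jR (X.b.r.tensL Y.N) (Y.b.r.tensR X.N) (x ⊗ₜ y) ((1 : A'.V) ⊗ₜ[k] (1 : B'.V)) = x ⊗ₜ y
    have h : A'.P (1 : A'.V) = 1 := A'.P_one
    rw [jR_tmul, RA.tensL_act, h, sub_self, map_zero,
      TensorProduct.zero_tmul, add_zero, RA.tensR_act, Y.r_one, X.r_one]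

end

end NC
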