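import Pool.Agent.H34.TE.PFt

/-!
# The outer tensor product of free bimodules is free; the main theorems
-/

set_option autoImplicit false

open scoped TensorProduct

noncomputable section

namespace NC

variable {k : Type} [Field k]

/-- extensionality on fourfold tensor products -/
theorem four_ext {U V W X Z : Type} [AddCommGroup U] [Module k U] [AddCommGroup V] [Module k V]
    [AddCommGroup W] [Module k W] [AddCommGroup X] [Module k X] [AddCommGroup Z] [Module k Z]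
    {f g : (U ⊗[k] V) ⊗[k] (W ⊗[k] X) →ₗ[k] Z}
    (h : ∀ a b c d, f ((a ⊗ₜ b) ⊗ₜ (c ⊗ₜ d)) = g ((a ⊗ₜ b) ⊗ₜ (c ⊗ₜ d)))
    (v : (U ⊗[k] V) ⊗[k] (W ⊗[k] X)) : f v = g v := by
  refine tens_ext (f := f) (g := g) (fun x y => ?_) v
  refine tens_ext (f := f ∘ₗ (TensorProduct.mk k (U ⊗[k] V) (W ⊗[k] X)).flip y)
    (g := g ∘ₗ (TensorProduct.mk k (U ⊗[k] V) (W ⊗[k] X)).flip y) (fun a b => ?_) x
  change f ((a ⊗ₜ b) ⊗ₜ y) = g ((a ⊗ₜ b) ⊗ₜ y)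
  exact tens_ext (f := f ∘ₗ TensorProduct.mk k (U ⊗[k] V) (W ⊗[k] X) (a ⊗ₜ b))
    (g := g ∘ₗ TensorProduct.mk k (U ⊗[k] V) (W ⊗[k] X) (a ⊗ₜ b)) (fun c d => h a b c d) y

section

variable (A B : DGA k)

/-- the sign operator -/
def frSt : (A.V ⊗[k] A.V) ⊗[k] (B.V ⊗[k] B.V) →ₗ[k] (A.V ⊗[k] A.V) ⊗[k] (B.V ⊗[k] B.V) :=
  TensorProduct.map LinearMap.id (TensorProduct.map B.P LinearMap.id) +
    TensorProduct.map (TensorProduct.map LinearMap.id A.E)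
      (TensorProduct.map (LinearMap.id - B.P) LinearMap.id)

@[simp] theorem frSt_tmul (a a' : A.V) (b b' : B.V) :
    frSt A B ((a ⊗ₜ a') ⊗ₜ (b ⊗ₜ b')) = (a ⊗ₜ a') ⊗ₜ (B.P b ⊗ₜ b') +
      (a ⊗ₜ A.E a') ⊗ₜ ((b - B.P b) ⊗ₜ b') := rfl

theorem frSt_frSt (v : (A.V ⊗[k] A.V) ⊗[k] (B.V ⊗[k] B.V)) : frSt A B (frSt A B v) = v := by
  refine four_ext (f := frSt A B ∘ₗ frSt A B) (g := LinearMap.id) (fun a a' b b' => ?_) v
  simp only [LinearMap.comp_apply, frSt_tmul, map_add, B.PP, map_sub, sub_self,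
    TensorProduct.zero_tmul, TensorProduct.tmul_zero, add_zero, zero_add, sub_zero, A.EE,
    LinearMap.id_apply]
  rw [← TensorProduct.tmul_add, ← TensorProduct.add_tmul, add_sub_cancel]

/-- the map `(a ⊗ b) ⊗ (a' ⊗ b') ↦ (-1)^(|b||a'|) (a ⊗ a') ⊗ (b ⊗ b')` -/
def frT : (A.V ⊗[k] B.V) ⊗[k] (A.V ⊗[k] B.V) →ₗ[k] (A.V ⊗[k] A.V) ⊗[k] (B.V ⊗[k] B.V) :=
  frSt A B ∘ₗ (TensorProduct.tensorTensorTensorComm k A.V B.V A.V B.V).toLinearMap

@[simp] theorem frT_tmul (a a' : A.V) (b b' : B.V) :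
    frT A B ((a ⊗ₜ b) ⊗ₜ (a' ⊗ₜ b')) = (a ⊗ₜ a') ⊗ₜ (B.P b ⊗ₜ b') +
      (a ⊗ₜ A.E a') ⊗ₜ ((b - B.P b) ⊗ₜ b') := rfl

theorem frT_bij : Function.Bijective (frT A B) :=
  (show Function.Involutive (frSt A B) from frSt_frSt A B).bijective.comp
    (TensorProduct.tensorTensorTensorComm k A.V B.V A.V B.V).bijective

theorem tD_four (X Y Z W : SD k) (x : X.V) (y : Y.V) (z : Z.V) (w : W.V) :
    SD.tD (X.tens Y) (Z.tens W) ((x ⊗ₜ y) ⊗ₜ (z ⊗ₜ w)) =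
      (X.D x ⊗ₜ y + X.E x ⊗ₜ Y.D y) ⊗ₜ (z ⊗ₜ w) +
        (X.E x ⊗ₜ Y.E y) ⊗ₜ (Z.D z ⊗ₜ w + Z.E z ⊗ₜ W.D w) := by
  have e1 : (X.tens Y).E (x ⊗ₜ y) = X.E x ⊗ₜ Y.E y := SD.tens_E _ _ x y
  rw [SD.tD_tmul, e1]
  rfl

theorem tP_four (X Y Z W : SD k) (x : X.V) (y : Y.V) (z : Z.V) (w : W.V) :
    SD.tP (X.tens Y) (Z.tens W) ((x ⊗ₜ y) ⊗ₜ (z ⊗ₜ w)) =
      (X.P x ⊗ₜ Y.P y + (x - X.P x) ⊗ₜ (y - Y.P y)) ⊗ₜ
          (Z.P z ⊗ₜ W.P w + (z - Z.P z) ⊗ₜ (w - W.P w)) +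
        (x ⊗ₜ y - (X.P x ⊗ₜ Y.P y + (x - X.P x) ⊗ₜ (y - Y.P y))) ⊗ₜ
          (z ⊗ₜ w - (Z.P z ⊗ₜ W.P w + (z - Z.P z) ⊗ₜ (w - W.P w))) := rfl

theorem frT_D (v : (A.V ⊗[k] B.V) ⊗[k] (A.V ⊗[k] B.V)) :
    frT A B (SD.tD (A.toSD.tens B.toSD) (A.toSD.tens B.toSD) v) =
      SD.tD (A.toSD.tens A.toSD) (B.toSD.tens B.toSD) (frT A B v) := by
  refine four_ext (f := frT A B ∘ₗ SD.tD (A.toSD.tens B.toSD) (A.toSD.tens B.toSD))
    (g := SD.tD (A.toSD.tens A.toSD) (B.toSD.tens B.toSD) ∘ₗ frT A B) (fun a b a' b' => ?_) v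
  have d1 : B.D (B.P b) = B.D b - B.P (B.D b) := B.DP b
  have d2 : B.P (B.E b) = B.P b := B.PE b
  have d3 : B.E b = B.P b + B.P b - b := rfl
  have d4 : B.E (B.P b) = B.P b := B.EP b
  have d5 : B.E (b - B.P b) = - (b - B.P b) := by
    rw [map_sub, d4, d3]
    abel
  have d6 : B.D (b - B.P b) = B.P (B.D b) := by
    rw [map_sub, d1]
    abel
  rw [LinearMap.comp_apply, LinearMap.comp_apply, frT_tmul, map_add, tD_four, tD_four, tD_four,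
    d1, d4, d5, d6]
  simp only [TensorProduct.add_tmul, TensorProduct.tmul_add, map_add, frT_tmul, d2, A.EE,
    A.DE]
  rw [d3]
  simp only [TensorProduct.sub_tmul, TensorProduct.add_tmul, TensorProduct.tmul_sub,
    TensorProduct.tmul_add, TensorProduct.tmul_neg, TensorProduct.neg_tmul]
  abel

theorem frT_P (v : (A.V ⊗[k] B.V) ⊗[k] (A.V ⊗[k] B.V)) :
    frT A B (SD.tP (A.toSD.tens B.toSD) (A.toSD.tens B.toSD) v) =
      SD.tP (A.toSD.tens A.toSD) (B.toSD.tens B.toSD) (frT A B v) := by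
  refine four_ext (f := frT A B ∘ₗ SD.tP (A.toSD.tens B.toSD) (A.toSD.tens B.toSD))
    (g := SD.tP (A.toSD.tens A.toSD) (B.toSD.tens B.toSD) ∘ₗ frT A B) (fun a b a' b' => ?_) v
  rw [LinearMap.comp_apply, LinearMap.comp_apply, frT_tmul, map_add, tP_four, tP_four, tP_four]
  simp only [TensorProduct.add_tmul, TensorProduct.tmul_add, map_add, frT_tmul, B.PP, A.EP, A.PE,
    map_sub, TensorProduct.sub_tmul, TensorProduct.tmul_sub, sub_self,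
    TensorProduct.zero_tmul, TensorProduct.tmul_zero, sub_zero, add_zero]
  abel

/-- **the free bimodule over the tensor product is the outer tensor product of free bimodules** -/
def frHom : BMod.Hom (BMod.free (DGA.tens A B) (DGA.tens A B))
    ((BMod.free A A).out (BMod.free B B)) where
  f := frT A B
  D := frT_D A B
  P := frT_P A B
  isHom := ⟨fun t v => by
    refine tens_ext (f := frT A B ∘ₗ ((BMod.free (DGA.tens A B) (DGA.tens A B)).b.l.act.flip v))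
      (g := ((BMod.free A A).out (BMod.free B B)).b.l.act.flip (frT A B v)) (fun c d => ?_) t
    refine four_ext
      (f := frT A B ∘ₗ ((BMod.free (DGA.tens A B) (DGA.tens A B)).b.l.act
        (c ⊗ₜ d : A.V ⊗[k] B.V)))
      (g := ((BMod.free A A).out (BMod.free B B)).b.l.act (c ⊗ₜ d : A.V ⊗[k] B.V) ∘ₗ frT A B)
      (fun a b a' b' => ?_) v
    have e2 : ∀ (x y : A.V), (A.toSD.tens A.toSD).E (x ⊗ₜ y) = A.E x ⊗ₜ A.E y :=
      fun x y => SD.tens_E _ _ x y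
    have q0 : ∀ x y : B.V, B.P (x * y) = B.P x * B.P y + (x - B.P x) * (y - B.P y) :=
      fun x y => B.P_mul x y
    have q1 : B.P (B.P d * b) = B.P d * B.P b := by
      rw [q0, B.PP, sub_self, zero_mul, add_zero]
    have q2 : B.P ((d - B.P d) * b) = (d - B.P d) * (b - B.P b) := by
      have h2 : B.P (d - B.P d) = 0 := by rw [map_sub, B.PP, sub_self]
      rw [q0, h2, zero_mul, zero_add, sub_zero]
    change frT A B (tmulT A B (c ⊗ₜ d) (a ⊗ₜ b) ⊗ₜ (a' ⊗ₜ b')) =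
      ((BMod.free A A).b.out (BMod.free B B).b).l.act (c ⊗ₜ d : A.V ⊗[k] B.V)
        (frT A B ((a ⊗ₜ b) ⊗ₜ (a' ⊗ₜ b')))
    rw [tmulT_tmul, frT_tmul]
    refine Eq.trans ?_ (map_add (((BMod.free A A).b.out (BMod.free B B).b).l.act
      (c ⊗ₜ d : A.V ⊗[k] B.V)) _ _).symm
    change _ = ((c * a) ⊗ₜ a') ⊗ₜ ((B.P d * B.P b) ⊗ₜ b') +
      (BMod.free A A).b.l.act c ((A.toSD.tens A.toSD).E (a ⊗ₜ a')) ⊗ₜ
        (((d - B.P d) * B.P b) ⊗ₜ b') +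
      (((c * a) ⊗ₜ A.E a') ⊗ₜ ((B.P d * (b - B.P b)) ⊗ₜ b') +
      (BMod.free A A).b.l.act c ((A.toSD.tens A.toSD).E (a ⊗ₜ A.E a')) ⊗ₜ
        (((d - B.P d) * (b - B.P b)) ⊗ₜ b'))
    rw [e2, e2, A.EE]
    change _ = ((c * a) ⊗ₜ a') ⊗ₜ ((B.P d * B.P b) ⊗ₜ b') +
      ((c * A.E a) ⊗ₜ A.E a') ⊗ₜ (((d - B.P d) * B.P b) ⊗ₜ b') +
      (((c * a) ⊗ₜ A.E a') ⊗ₜ ((B.P d * (b - B.P b)) ⊗ₜ b') +
      ((c * A.E a) ⊗ₜ a') ⊗ₜ (((d - B.P d) * (b - B.P b)) ⊗ₜ b'))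
    rw [TensorProduct.add_tmul, map_add, frT_tmul, frT_tmul, q1, q2]
    simp only [mul_sub, sub_mul, TensorProduct.sub_tmul, TensorProduct.tmul_sub]
    abel,
   fun v t => by
    refine tens_ext
      (f := frT A B ∘ₗ ((BMod.free (DGA.tens A B) (DGA.tens A B)).b.r.act v))
      (g := ((BMod.free A A).out (BMod.free B B)).b.r.act (frT A B v)) (fun c d => ?_) t
    refine four_ext
      (f := frT A B ∘ₗ ((BMod.free (DGA.tens A B) (DGA.tens A B)).b.r.act.flip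
        (c ⊗ₜ d : A.V ⊗[k] B.V)))
      (g := ((BMod.free A A).out (BMod.free B B)).b.r.act.flip (c ⊗ₜ d : A.V ⊗[k] B.V) ∘ₗ
        frT A B)
      (fun a b a' b' => ?_) v
    have e2 : ∀ (x y : B.V), (B.toSD.tens B.toSD).E (x ⊗ₜ y) = B.E x ⊗ₜ B.E y :=
      fun x y => SD.tens_E _ _ x y
    change frT A B ((a ⊗ₜ b) ⊗ₜ tmulT A B (a' ⊗ₜ b') (c ⊗ₜ d)) =
      ((BMod.free A A).b.out (BMod.free B B).b).r.act
        (frT A B ((a ⊗ₜ b) ⊗ₜ (a' ⊗ₜ b'))) (c ⊗ₜ d : A.V ⊗[k] B.V)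
    rw [tmulT_tmul, frT_tmul]
    refine Eq.trans ?_ (LinearMap.map_add₂ (((BMod.free A A).b.out (BMod.free B B).b).r.act)
      ((a ⊗ₜ a') ⊗ₜ (B.P b ⊗ₜ b')) ((a ⊗ₜ A.E a') ⊗ₜ ((b - B.P b) ⊗ₜ b'))
      (c ⊗ₜ d : A.V ⊗[k] B.V)).symm
    change _ = (a ⊗ₜ (a' * A.P c)) ⊗ₜ (B.P b ⊗ₜ (b' * d)) +
      (a ⊗ₜ (a' * (c - A.P c))) ⊗ₜ
        (BMod.free B B).b.r.act ((B.toSD.tens B.toSD).E (B.P b ⊗ₜ b')) d +
      ((a ⊗ₜ (A.E a' * A.P c)) ⊗ₜ ((b - B.P b) ⊗ₜ (b' * d)) +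
      (a ⊗ₜ (A.E a' * (c - A.P c))) ⊗ₜ
        (BMod.free B B).b.r.act ((B.toSD.tens B.toSD).E ((b - B.P b) ⊗ₜ b')) d)
    rw [e2, e2]
    change _ = (a ⊗ₜ (a' * A.P c)) ⊗ₜ (B.P b ⊗ₜ (b' * d)) +
      (a ⊗ₜ (a' * (c - A.P c))) ⊗ₜ (B.E (B.P b) ⊗ₜ (B.E b' * d)) +
      ((a ⊗ₜ (A.E a' * A.P c)) ⊗ₜ ((b - B.P b) ⊗ₜ (b' * d)) +
      (a ⊗ₜ (A.E a' * (c - A.P c))) ⊗ₜ (B.E (b - B.P b) ⊗ₜ (B.E b' * d)))
    have e3 : B.E (b - B.P b) = - (b - B.P b) := by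
      have h3 : B.E b = B.P b + B.P b - b := rfl
      rw [map_sub, B.EP, h3]
      abel
    rw [B.EP, e3, TensorProduct.tmul_add, map_add, frT_tmul, frT_tmul, A.E_mul, A.E_mul, A.EE]
    simp only [SD.E_apply, mul_sub, sub_mul, mul_add, add_mul,
      TensorProduct.sub_tmul, TensorProduct.tmul_sub, TensorProduct.add_tmul,
      TensorProduct.tmul_add, TensorProduct.neg_tmul, TensorProduct.tmul_neg]
    abel⟩

end

/-! ### the diagonal bimodule -/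

section

variable (A B : DGA k)

/-- the diagonal bimodule of the tensor product -/
def diagHom : BMod.Hom ((BMod.diag A).out (BMod.diag B)) (BMod.diag (DGA.tens A B)) where
  f := (LinearMap.id : A.V ⊗[k] B.V →ₗ[k] A.V ⊗[k] B.V)
  D := fun v => rfl
  P := fun v => rfl
  isHom := ⟨fun t v => rfl, fun v t => by
    refine out_ext (A := A) (B := B) (X := A.toSD) (Y := B.toSD) (Z := A.toSD.tens B.toSD)
      (f := ((BMod.diag A).b.out (BMod.diag B).b).r.act.flip)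
      (g := (tmulT A B).flip) (fun a b x y => ?_) t v
    change ((BMod.diag A).b.out (BMod.diag B).b).r.act (x ⊗ₜ y : A.V ⊗[k] B.V)
      (a ⊗ₜ b : A.V ⊗[k] B.V) = tmulT A B (x ⊗ₜ y) (a ⊗ₜ b)
    refine (out_r (BMod.diag A).b (BMod.diag B).b a b x y).trans ?_
    rw [tmulT_tmul]
    change (x * A.P a) ⊗ₜ[k] (y * b) + (x * (a - A.P a)) ⊗ₜ[k] (B.E y * b) = _
    simp only [SD.E_apply, mul_sub, sub_mul, mul_add, add_mul,
      TensorProduct.sub_tmul, TensorProduct.tmul_sub, TensorProduct.add_tmul,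
      TensorProduct.tmul_add]
    abel⟩

end

/-! ### main theorems -/

section

variable {A B : DGA k}

theorem PF_free_out {Y : BMod B B} (hY : PF B Y) :
    PF (DGA.tens A B) ((BMod.free A A).out Y) := by
  induction hY with
  | free => exact PF.qi (frHom A B) (QI_of_bijective _ (frT_bij A B)) PF.free
  | @sh Y _ ih =>
    exact PF.qi (outShR (BMod.free A A) Y) (QI_of_bijective _ (outShR_bij _ Y)) ih.sh
  | @qi X Y f hf _ ih => exact PF.qi _ (out_qiR hf (BMod.free A A)) ih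
  | @qi' X Y f hf _ ih => exact PF.qi' _ (out_qiR hf (BMod.free A A)) ih
  | @ses1 X' X X'' f g h _ _ ih1 ih2 => exact PF.ses1 _ _ (out_sesR h (BMod.free A A)) ih1 ih2
  | @ses2 X' X X'' f g h _ _ ih1 ih2 => exact PF.ses2 _ _ (out_sesR h (BMod.free A A)) ih1 ih2
  | @ses3 X' X X'' f g h _ _ ih1 ih2 => exact PF.ses3 _ _ (out_sesR h (BMod.free A A)) ih1 ih2
  | @retr X F H _ ih =>
    obtain ⟨H'⟩ := out_retR H (BMod.free A A)
    exact PF.retr H' ih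

/-- **outer tensor products of perfect bimodules are perfect** -/
theorem PF_out {X : BMod A A} {Y : BMod B B} (hX : PF A X) (hY : PF B Y) :
    PF (DGA.tens A B) (X.out Y) := by
  induction hX with
  | free => exact PF_free_out hY
  | @sh X _ ih => exact PF.qi (outShL X Y) (QI_of_bijective _ (outShL_bij X Y)) ih.sh
  | @qi X X' f hf _ ih => exact PF.qi _ (out_qiL hf Y) ih
  | @qi' X X' f hf _ ih => exact PF.qi' _ (out_qiL hf Y) ih
  | @ses1 X' X X'' f g h _ _ ih1 ih2 => exact PF.ses1 _ _ (out_sesL h Y) ih1 ih2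
  | @ses2 X' X X'' f g h _ _ ih1 ih2 => exact PF.ses2 _ _ (out_sesL h Y) ih1 ih2
  | @ses3 X' X X'' f g h _ _ ih1 ih2 => exact PF.ses3 _ _ (out_sesL h Y) ih1 ih2
  | @retr X F H _ ih =>
    obtain ⟨H'⟩ := out_retL H Y
    exact PF.retr H' ih

/-- **the super tensor product of smooth dg algebras is smooth** -/
theorem PF_tens_diag (hA : PF A (BMod.diag A)) (hB : PF B (BMod.diag B)) :
    PF (DGA.tens A B) (BMod.diag (DGA.tens A B)) :=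
  PF.qi (diagHom A B) (QI_of_bijective _ Function.bijective_id) (PF_out hA hB)

end

end NC
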