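import Pool.Agent.H34.TE.Free
import Pool.Agent.H28.NC.PFin
import Pool.Agent.H9.NC.Coh

/-!
# The tensor product of graded dg algebras

`ZDGA.tens A B`, whose underlying super dg algebra is `DGA.tens A.toDGA B.toDGA`
(definitionally); it is saturated when `A` and `B` are smooth in the super sense and have finite
dimensional cohomology.
-/

set_option autoImplicit false

open scoped TensorProduct

noncomputable section

namespace NC

variable {k : Type} [Field k]

section

variable {V W : Type} [AddCommGroup V] [Module k V] [AddCommGroup W] [Module k W]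

/-- the grading of a tensor product -/
def grT (g : ℤ → Submodule k V) (h : ℤ → Submodule k W) (i : ℤ) : Submodule k (V ⊗[k] W) :=
  Submodule.span k {z | ∃ m j w y, m + j = i ∧ w ∈ g m ∧ y ∈ h j ∧ z = w ⊗ₜ[k] y}

theorem tmul_mem_grT {g : ℤ → Submodule k V} {h : ℤ → Submodule k W} {m j i : ℤ} {v : V} {w : W}
    (hv : v ∈ g m) (hw : w ∈ h j) (hi : m + j = i) : v ⊗ₜ[k] w ∈ grT g h i :=
  Submodule.subset_span ⟨m, j, v, w, hi, hv, hw, rfl⟩

theorem grT_internal {g : ℤ → Submodule k V} {h : ℤ → Submodule k W}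
    (hg : DirectSum.IsInternal g) (hh : DirectSum.IsInternal h) :
    DirectSum.IsInternal (grT g h) := by
  let Bm : ℤ → (V →ₗ[k] W →ₗ[k] (ℤ → V ⊗[k] W)) := fun m =>
    (Wd.ofInt hh (fun j => ((TensorProduct.mk k V W).compr₂
      (LinearMap.single k (fun _ => V ⊗[k] W) (m + j))).flip)).flip
  let F : V ⊗[k] W →ₗ[k] (ℤ → V ⊗[k] W) := TensorProduct.lift (Wd.ofInt hg Bm)
  have hF : ∀ m j v w, v ∈ g m → w ∈ h j →
      F (v ⊗ₜ w) = LinearMap.single k (fun _ => V ⊗[k] W) (m + j) (v ⊗ₜ w) := by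
    intro m j v w hv hw
    change Wd.ofInt hg Bm v w = _
    rw [Wd.ofInt_apply hg Bm hv]
    change Wd.ofInt hh (fun j => ((TensorProduct.mk k V W).compr₂
      (LinearMap.single k (fun _ => V ⊗[k] W) (m + j))).flip) w v = _
    rw [Wd.ofInt_apply hh _ hw]
    rfl
  refine BG.internal_of_comps F (fun i z hz => ?_) (fun z => ?_)
  · have hle : grT g h i ≤ LinearMap.eqLocus F (LinearMap.single k (fun _ => V ⊗[k] W) i) := by
      refine Submodule.span_le.2 ?_
      rintro _ ⟨m, j, v, w, rfl, hv, hw, rfl⟩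
      exact hF m j v w hv hw
    exact hle hz
  · have h1 : ∀ v w, v ⊗ₜ[k] w ∈ iSup (grT g h) := by
      intro v w
      refine Wd.mem_of_int hg
        ((iSup (grT g h)).comap ((TensorProduct.mk k V W).flip w)) (fun m v hv => ?_) v
      refine Wd.mem_of_int hh ((iSup (grT g h)).comap (TensorProduct.mk k V W v))
        (fun j w hw => ?_) w
      exact (le_iSup (grT g h) (m + j)) (tmul_mem_grT hv hw rfl)
    induction z using TensorProduct.induction_on with
    | zero => exact Submodule.zero_mem _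
    | tmul v w => exact h1 v w
    | add a b ha hb => exact Submodule.add_mem _ ha hb

end

section

variable (A B : ZDGA k)

theorem gr_P_mem {X : ZD k} {i : ℤ} {v : X.V} (hv : v ∈ X.gr i) : X.P v ∈ X.gr i := by
  rw [X.P_gr i v hv]
  split_ifs
  · exact hv
  · exact Submodule.zero_mem _

theorem gr_E_mem {X : ZD k} {i : ℤ} {v : X.V} (hv : v ∈ X.gr i) : X.toSD.E v ∈ X.gr i :=
  Submodule.sub_mem _ (Submodule.add_mem _ (gr_P_mem hv) (gr_P_mem hv)) hv

theorem tP_grT (i : ℤ) (v : A.V ⊗[k] B.V) (hv : v ∈ grT A.gr B.gr i) :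
    SD.tP A.toSD B.toSD v = if Even i then v else 0 := by
  have hle : grT A.gr B.gr i ≤ LinearMap.eqLocus (SD.tP A.toSD B.toSD)
      (if Even i then LinearMap.id else 0) := by
    refine Submodule.span_le.2 ?_
    rintro _ ⟨m, j, w, y, rfl, hw, hy, rfl⟩
    change SD.tP A.toSD B.toSD (w ⊗ₜ[k] y) =
      (if Even (m + j) then LinearMap.id else 0 : A.V ⊗[k] B.V →ₗ[k] A.V ⊗[k] B.V) (w ⊗ₜ[k] y)
    rw [SD.tP_tmul, A.P_gr m w hw, B.P_gr j y hy]
    by_cases h1 : Even m <;> by_cases h2 : Even j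
    · rw [if_pos h1, if_pos h2, if_pos (h1.add h2)]
      simp
    · rw [if_pos h1, if_neg h2, if_neg (by rw [Int.even_add]; tauto)]
      simp
    · rw [if_neg h1, if_pos h2, if_neg (by rw [Int.even_add]; tauto)]
      simp
    · rw [if_neg h1, if_neg h2, if_pos (by rw [Int.even_add]; tauto)]
      simp
  have h := hle hv
  have h2 : SD.tP A.toSD B.toSD v = (if Even i then LinearMap.id else 0 :
        A.V ⊗[k] B.V →ₗ[k] A.V ⊗[k] B.V) v := h
  rw [h2]
  split_ifs <;> rfl

theorem tD_grT (i : ℤ) (v : A.V ⊗[k] B.V) (hv : v ∈ grT A.gr B.gr i) :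
    SD.tD A.toSD B.toSD v ∈ grT A.gr B.gr (i + 1) := by
  have hle : grT A.gr B.gr i ≤ (grT A.gr B.gr (i + 1)).comap (SD.tD A.toSD B.toSD) := by
    refine Submodule.span_le.2 ?_
    rintro _ ⟨m, j, w, y, rfl, hw, hy, rfl⟩
    change SD.tD A.toSD B.toSD (w ⊗ₜ[k] y) ∈ grT A.gr B.gr (m + j + 1)
    rw [SD.tD_tmul]
    exact Submodule.add_mem _ (tmul_mem_grT (A.D_gr m w hw) hy (by ring))
      (tmul_mem_grT (gr_E_mem (X := A.toZD) hw) (B.D_gr j y hy) (by ring))
  exact hle hv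

theorem tmulT_grT (i j : ℤ) (u : A.V ⊗[k] B.V) (hu : u ∈ grT A.gr B.gr i)
    (v : A.V ⊗[k] B.V) (hv : v ∈ grT A.gr B.gr j) :
    tmulT A.toDGA B.toDGA u v ∈ grT A.gr B.gr (i + j) := by
  have hle : grT A.gr B.gr i ≤ (grT A.gr B.gr (i + j)).comap
      ((tmulT A.toDGA B.toDGA).flip v) := by
    refine Submodule.span_le.2 ?_
    rintro _ ⟨m, n, a, b, rfl, ha, hb, rfl⟩
    change tmulT A.toDGA B.toDGA (a ⊗ₜ b) v ∈ grT A.gr B.gr (m + n + j)
    have hle2 : grT A.gr B.gr j ≤ (grT A.gr B.gr (m + n + j)).comap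
        (tmulT A.toDGA B.toDGA (a ⊗ₜ b)) := by
      refine Submodule.span_le.2 ?_
      rintro _ ⟨m', n', a', b', rfl, ha', hb', rfl⟩
      change tmulT A.toDGA B.toDGA (a ⊗ₜ b) (a' ⊗ₜ b') ∈ grT A.gr B.gr (m + n + (m' + n'))
      rw [tmulT_tmul]
      have hb1 : B.P b ∈ B.gr n := gr_P_mem (X := B.toZD) hb
      refine Submodule.add_mem _ (tmul_mem_grT (A.mul_gr _ _ a ha a' ha')
        (B.mul_gr _ _ (B.P b) hb1 b' hb') (by ring))
        (tmul_mem_grT (A.mul_gr _ _ a ha (A.E a') (gr_E_mem (X := A.toZD) ha'))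
        (B.mul_gr _ _ (b - B.P b) (Submodule.sub_mem _ hb hb1) b' hb') (by ring))
    exact hle2 hv
  exact hle hu

/-- **the tensor product of graded dg algebras** -/
def ZDGA.tens : ZDGA k where
  toDGA := DGA.tens A.toDGA B.toDGA
  gr := grT A.gr B.gr
  internal := grT_internal A.internal B.internal
  P_gr := tP_grT A B
  D_gr := tD_grT A B
  mul_gr := fun i j a ha b hb => tmulT_grT A B i j a ha b hb
  one_gr := tmul_mem_grT A.one_gr B.one_gr (add_zero 0)

theorem ZDGA.tens_toDGA : (ZDGA.tens A B).toDGA = DGA.tens A.toDGA B.toDGA := rfl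

end

/-- the tensor product of saturated dg algebras -/
theorem tens_saturated (A B : ZDGA k) (hA : PF A.toDGA (BMod.diag A.toDGA))
    (hB : PF B.toDGA (BMod.diag B.toDGA)) (fA : A.toSD.FinH) (fB : B.toSD.FinH) :
    PF (ZDGA.tens A B).toDGA (BMod.diag (ZDGA.tens A B).toDGA) ∧
      (ZDGA.tens A B).toSD.FinH ∧ (ZDGA.tens A B).IsSaturated := by
  have h1 : PF (ZDGA.tens A B).toDGA (BMod.diag (ZDGA.tens A B).toDGA) := PF_tens_diag hA hB
  have h2 : (ZDGA.tens A B).toSD.FinH := SD.FinH.tens fA fB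
  exact ⟨h1, h2, perfect_of_PF _ h1, SD.coh_finite_iff.2 h2⟩

end NC
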