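import Pool.Agent.H36.EK.AX
import Pool.Agent.H34.TE.Zt

/-!
# LnkA : the map `AE ⊗ AE → AX`

`iX : DGA.tens AE AE → AX`, `x ⊗ y ↦ (x eps^|y|) ⊗ y`; entries: `iX_tmul`.
-/

set_option autoImplicit false

open NC
open scoped Kronecker TensorProduct

noncomputable section

namespace EK

open H36.NX

variable {q : ℕ} {k : Type} [Field k] {R : Type} [CommRing R] [Algebra k R]
  {K : Type} [CommRing K] [Algebra k K]

/-- index set of the matrices of `AE` -/
abbrev IE : Type := Fin 2 × Fin 2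

/-- the sign matrix -/
def epsE : Matrix IE IE K := Matrix.diagonal (fun i => if i.1 = 0 then 1 else -1)

theorem epsE_mul_apply (M : Matrix IE IE K) (i j : IE) :
    ((epsE : Matrix IE IE K) * M) i j = (if i.1 = 0 then 1 else -1) * M i j := by
  rw [epsE, Matrix.diagonal_mul]

theorem mul_epsE_apply (M : Matrix IE IE K) (i j : IE) :
    (M * (epsE : Matrix IE IE K)) i j = M i j * (if j.1 = 0 then 1 else -1) := by
  rw [epsE, Matrix.mul_diagonal]

theorem epsE_sq : (epsE : Matrix IE IE K) * epsE = 1 := by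
  ext i j
  rw [epsE_mul_apply, epsE, Matrix.diagonal_apply, Matrix.one_apply]
  by_cases h : i = j
  · rw [if_pos h, if_pos h]
    split_ifs <;> ring
  · rw [if_neg h, if_neg h, mul_zero]

/-- reindexed Kronecker product -/
def kr (M N : Matrix IE IE K) : Matrix SurR.IX SurR.IX K := fun a b =>
  M (a.1.1, a.2.1) (b.1.1, b.2.1) * N (a.1.2, a.2.2) (b.1.2, b.2.2)

theorem kr_apply (M N : Matrix IE IE K) (a b : SurR.IX) :
    kr M N a b = M (a.1.1, a.2.1) (b.1.1, b.2.1) * N (a.1.2, a.2.2) (b.1.2, b.2.2) := rfl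

theorem kr_eq (M N : Matrix IE IE K) : kr M N = (M ⊗ₖ N).submatrix
    (Equiv.prodProdProdComm (Fin 2) (Fin 2) (Fin 2) (Fin 2))
    (Equiv.prodProdProdComm (Fin 2) (Fin 2) (Fin 2) (Fin 2)) := rfl

theorem kr_mul (M N M' N' : Matrix IE IE K) : kr M N * kr M' N' = kr (M * M') (N * N') := by
  rw [kr_eq, kr_eq, kr_eq, Matrix.submatrix_mul_equiv, Matrix.mul_kronecker_mul]

theorem kr_add_left (M M' N : Matrix IE IE K) : kr (M + M') N = kr M N + kr M' N := by
  ext a b
  simp only [kr_apply, Matrix.add_apply, add_mul]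

theorem kr_add_right (M N N' : Matrix IE IE K) : kr M (N + N') = kr M N + kr M N' := by
  ext a b
  simp only [kr_apply, Matrix.add_apply, mul_add]

theorem kr_sub_left (M M' N : Matrix IE IE K) : kr (M - M') N = kr M N - kr M' N := by
  ext a b
  simp only [kr_apply, Matrix.sub_apply, sub_mul]

theorem kr_sub_right (M N N' : Matrix IE IE K) : kr M (N - N') = kr M N - kr M N' := by
  ext a b
  simp only [kr_apply, Matrix.sub_apply, mul_sub]

theorem kr_neg_left (M N : Matrix IE IE K) : kr (-M) N = - kr M N := by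
  ext a b
  simp only [kr_apply, Matrix.neg_apply, neg_mul]

theorem kr_neg_right (M N : Matrix IE IE K) : kr M (-N) = - kr M N := by
  ext a b
  simp only [kr_apply, Matrix.neg_apply, mul_neg]

theorem kr_one : kr (1 : Matrix IE IE K) 1 = 1 := by
  rw [kr_eq, Matrix.one_kronecker_one, Matrix.submatrix_one_equiv]

/-- the sign of an entry -/
def sg (a b : SurR.IX) : K :=
  if Even (((b.1.2 : ℕ) : ℤ) - ((a.1.2 : ℕ) : ℤ)) then 1 else (if b.1.1 = 0 then 1 else -1)

namespace SurR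

variable {C : CurR q k R} (W : SurR C K) {p : ℕ} (hQ : QP p q k)

/-- matrices over `R` as matrices over `K`, on the left -/
def Lm (x : Matrix IE IE R) : Matrix IE IE K := x.map W.l

/-- matrices over `R` as matrices over `K`, on the right -/
def Rm (x : Matrix IE IE R) : Matrix IE IE K := x.map W.r

theorem Lm_apply (x : Matrix IE IE R) (i j : IE) : W.Lm x i j = W.l (x i j) := rfl
theorem Rm_apply (x : Matrix IE IE R) (i j : IE) : W.Rm x i j = W.r (x i j) := rfl

theorem Lm_mul (x y : Matrix IE IE R) : W.Lm (x * y) = W.Lm x * W.Lm y :=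
  Matrix.map_mul
theorem Rm_mul (x y : Matrix IE IE R) : W.Rm (x * y) = W.Rm x * W.Rm y :=
  Matrix.map_mul

theorem Lm_add (x y : Matrix IE IE R) : W.Lm (x + y) = W.Lm x + W.Lm y :=
  Matrix.map_add _ (map_add W.l) x y
theorem Rm_add (x y : Matrix IE IE R) : W.Rm (x + y) = W.Rm x + W.Rm y :=
  Matrix.map_add _ (map_add W.r) x y
theorem Lm_sub (x y : Matrix IE IE R) : W.Lm (x - y) = W.Lm x - W.Lm y :=
  Matrix.map_sub _ (map_sub W.l) x y
theorem Rm_sub (x y : Matrix IE IE R) : W.Rm (x - y) = W.Rm x - W.Rm y :=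
  Matrix.map_sub _ (map_sub W.r) x y
theorem Lm_one : W.Lm 1 = 1 := Matrix.map_one _ (map_zero W.l) (map_one W.l)
theorem Rm_one : W.Rm 1 = 1 := Matrix.map_one _ (map_zero W.r) (map_one W.r)

/-- the matrix of `x ⊗ y` -/
def iM (x y : Matrix IE IE R) : Matrix IX IX K :=
  kr (W.Lm x) (W.Rm (C.datE.pM y)) + kr (W.Lm x * epsE) (W.Rm (y - C.datE.pM y))

theorem iM_apply (x y : Matrix IE IE R) (a b : IX) : W.iM x y a b =
    sg a b * (W.l (x (a.1.1, a.2.1) (b.1.1, b.2.1)) * W.r (y (a.1.2, a.2.2) (b.1.2, b.2.2))) := by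
  have hp : C.datE.pM y (a.1.2, a.2.2) (b.1.2, b.2.2) =
      if Even (((b.1.2 : ℕ) : ℤ) - ((a.1.2 : ℕ) : ℤ)) then y (a.1.2, a.2.2) (b.1.2, b.2.2) else 0 :=
    rfl
  rw [iM, Matrix.add_apply, kr_apply, kr_apply, mul_epsE_apply, Lm_apply, Rm_apply, Rm_apply,
    Matrix.sub_apply, hp, sg]
  by_cases h : Even (((b.1.2 : ℕ) : ℤ) - ((a.1.2 : ℕ) : ℤ))
  · rw [if_pos h, if_pos h, sub_self, map_zero, mul_zero, add_zero, one_mul]
  · rw [if_neg h, if_neg h, sub_zero, map_zero, mul_zero, zero_add]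
    ring

include hQ in
theorem iM_mem (x y : C.AE.V) (a b : IX) : W.iM (mv C.datE x) (mv C.datE y) a b ∈ W.SX a b := by
  rw [iM_apply]
  have hx : mv C.datE x (a.1.1, a.2.1) (b.1.1, b.2.1) ∈ C.SE (a.1.1, a.2.1) (b.1.1, b.2.1) :=
    mv_mem C.datE x _ _
  have hy : mv C.datE y (a.1.2, a.2.2) (b.1.2, b.2.2) ∈ C.SE (a.1.2, a.2.2) (b.1.2, b.2.2) :=
    mv_mem C.datE y _ _
  have key : W.l (mv C.datE x (a.1.1, a.2.1) (b.1.1, b.2.1)) *
      W.r (mv C.datE y (a.1.2, a.2.2) (b.1.2, b.2.2)) ∈ W.SX a b := by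
    cases h1 : pcc a.1.1 b.1.1 with
    | none =>
      rw [C.SE_none (i := (a.1.1, a.2.1)) (j := (b.1.1, b.2.1)) h1, Submodule.mem_bot] at hx
      rw [hx, map_zero, zero_mul]
      exact Submodule.zero_mem _
    | some s =>
      cases h2 : pcc a.1.2 b.1.2 with
      | none =>
        rw [C.SE_none (i := (a.1.2, a.2.2)) (j := (b.1.2, b.2.2)) h2, Submodule.mem_bot] at hy
        rw [hy, map_zero, mul_zero]
        exact Submodule.zero_mem _
      | some s' =>
        rw [C.SE_some (i := (a.1.1, a.2.1)) (j := (b.1.1, b.2.1)) h1] at hx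
        rw [C.SE_some (i := (a.1.2, a.2.2)) (j := (b.1.2, b.2.2)) h2] at hy
        rw [W.SX_some h1 h2]
        exact W.lr_mem hQ s s' hx hy
  unfold sg
  split_ifs
  · rwa [one_mul]
  · rwa [one_mul]
  · rw [neg_one_mul]
    exact Submodule.neg_mem _ key

theorem iM_add_left (x x' y : Matrix IE IE R) : W.iM (x + x') y = W.iM x y + W.iM x' y := by
  ext a b
  rw [Matrix.add_apply, iM_apply, iM_apply, iM_apply, Matrix.add_apply, map_add]
  ring

theorem iM_add_right (x y y' : Matrix IE IE R) : W.iM x (y + y') = W.iM x y + W.iM x y' := by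
  ext a b
  rw [Matrix.add_apply, iM_apply, iM_apply, iM_apply, Matrix.add_apply, map_add]
  ring

theorem iM_smul_left (c : k) (x y : Matrix IE IE R) : W.iM (c • x) y = c • W.iM x y := by
  ext a b
  rw [Matrix.smul_apply, iM_apply, iM_apply, Matrix.smul_apply, map_smul, smul_mul_assoc,
    mul_smul_comm]

theorem iM_smul_right (c : k) (x y : Matrix IE IE R) : W.iM x (c • y) = c • W.iM x y := by
  ext a b
  rw [Matrix.smul_apply, iM_apply, iM_apply, Matrix.smul_apply, map_smul, mul_smul_comm,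
    mul_smul_comm]

/-- the map `AE ⊗ AE → AX`, linear version -/
def iXl : C.AE.V ⊗[k] C.AE.V →ₗ[k] (W.AX hQ).V :=
  TensorProduct.lift (LinearMap.mk₂ k
    (fun x y => EK.mk (W.datX hQ) (W.iM (mv C.datE x) (mv C.datE y)) (W.iM_mem hQ x y))
    (fun x x' y => m_ext _ (by
      change W.iM (mv C.datE (x + x')) (mv C.datE y) =
        W.iM (mv C.datE x) (mv C.datE y) + W.iM (mv C.datE x') (mv C.datE y)
      rw [map_add, iM_add_left]))
    (fun c x y => m_ext _ (by
      change W.iM (mv C.datE (c • x)) (mv C.datE y) = c • W.iM (mv C.datE x) (mv C.datE y)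
      rw [map_smul, iM_smul_left]))
    (fun x y y' => m_ext _ (by
      change W.iM (mv C.datE x) (mv C.datE (y + y')) =
        W.iM (mv C.datE x) (mv C.datE y) + W.iM (mv C.datE x) (mv C.datE y')
      rw [map_add, iM_add_right]))
    (fun c x y => m_ext _ (by
      change W.iM (mv C.datE x) (mv C.datE (c • y)) = c • W.iM (mv C.datE x) (mv C.datE y)
      rw [map_smul, iM_smul_right])))

theorem mv_iXl (x y : C.AE.V) : mv (W.datX hQ) (W.iXl hQ (x ⊗ₜ y)) =
    W.iM (mv C.datE x) (mv C.datE y) := rfl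

theorem iXl_tmul (x y : C.AE.V) (a b : IX) : mv (W.datX hQ) (W.iXl hQ (x ⊗ₜ y)) a b =
    sg a b * (W.l (mv C.datE x (a.1.1, a.2.1) (b.1.1, b.2.1)) *
      W.r (mv C.datE y (a.1.2, a.2.2) (b.1.2, b.2.2))) := by
  rw [mv_iXl, iM_apply]

end SurR

end EK
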