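import Pool.Agent.H34.TE.LnkA

/-!
# LnkB : the map `AE ⊗ AE → AX` is a map of dg algebras
-/

set_option autoImplicit false

open NC
open scoped Kronecker TensorProduct

noncomputable section

namespace EK

open H36.NX

variable {q : ℕ} {k : Type} [Field k] {R : Type} [CommRing R] [Algebra k R]
  {K : Type} [CommRing K] [Algebra k K]

theorem fin2_even (a b : Fin 2) : Even (((b : ℕ) : ℤ) - ((a : ℕ) : ℤ)) ↔ a = b := by
  fin_cases a <;> fin_cases b <;> simp [Int.even_iff]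

theorem sgn_mul (a b : Fin 2) : (if Even (((b : ℕ) : ℤ) - ((a : ℕ) : ℤ)) then (1 : K) else -1) =
    (if a = 0 then 1 else -1) * (if b = 0 then 1 else -1) := by
  have h := fin2_even a b
  by_cases ha : a = 0
  · subst ha
    by_cases hb : b = 0
    · subst hb
      rw [if_pos (h.2 rfl)]
      simp
    · rw [if_neg (fun h1 => hb (h.1 h1).symm), if_neg hb]
      simp
  · have ha1 : a = 1 := by omega
    subst ha1
    by_cases hb : b = 0
    · subst hb
      rw [if_neg (fun h1 => ha (h.1 h1))]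
      simp
    · have hb1 : b = 1 := by omega
      subst hb1
      rw [if_pos (h.2 rfl)]
      simp

/-- the matrix `e` over `K` -/
def eKE (k : Type) [Field k] (K : Type) [CommRing K] [Algebra k K] : Matrix IE IE K :=
  (CurR.eE (k := k)).map (algebraMap k K)

theorem eKE_apply (i j : IE) : eKE k K i j = algebraMap k K (e12 i.1 j.1) *
    (1 : Matrix (Fin 2) (Fin 2) K) i.2 j.2 := by
  change algebraMap k K (e12 i.1 j.1 * (1 : Matrix (Fin 2) (Fin 2) k) i.2 j.2) = _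
  rw [map_mul, Matrix.one_apply, Matrix.one_apply]
  split_ifs <;> simp

theorem epsE_eKE : (epsE : Matrix IE IE K) * eKE k K = - (eKE k K * epsE) := by
  ext i j
  rw [Matrix.neg_apply, epsE_mul_apply, mul_epsE_apply, eKE_apply]
  by_cases h : (e12 (k := k)) i.1 j.1 = 0
  · rw [h, map_zero, zero_mul, mul_zero, zero_mul, neg_zero]
  · obtain ⟨h1, h2⟩ := CurR.e12_ne h
    rw [if_pos h1, if_neg (by rw [h2]; decide)]
    ring

namespace SurR

variable {C : CurR q k R} (W : SurR C K) {p : ℕ} (hQ : QP p q k)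

theorem Lm_eM (x : Matrix IE IE R) : W.Lm (C.datE.eM x) = epsE * W.Lm x * epsE := by
  ext i j
  rw [mul_epsE_apply, epsE_mul_apply, Lm_apply, Lm_apply, MatDat.eM_apply, map_mul]
  have h : W.l (if Even (C.datE.deg j - C.datE.deg i) then 1 else -1) =
      (if i.1 = 0 then 1 else -1) * (if j.1 = 0 then 1 else -1) := by
    rw [← sgn_mul]
    change W.l (if Even (((j.1 : ℕ) : ℤ) - ((i.1 : ℕ) : ℤ)) then 1 else -1) = _
    split_ifs <;> simp
  rw [h]
  ring

theorem Rm_eM (x : Matrix IE IE R) : W.Rm (C.datE.eM x) = epsE * W.Rm x * epsE := by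
  ext i j
  rw [mul_epsE_apply, epsE_mul_apply, Rm_apply, Rm_apply, MatDat.eM_apply, map_mul]
  have h : W.r (if Even (C.datE.deg j - C.datE.deg i) then 1 else -1) =
      (if i.1 = 0 then 1 else -1) * (if j.1 = 0 then 1 else -1) := by
    rw [← sgn_mul]
    change W.r (if Even (((j.1 : ℕ) : ℤ) - ((i.1 : ℕ) : ℤ)) then 1 else -1) = _
    split_ifs <;> simp
  rw [h]
  ring

theorem Lm_eK : W.Lm C.datE.eK = eKE k K := by
  ext i j
  exact AlgHom.commutes W.l _

theorem Rm_eK : W.Rm C.datE.eK = eKE k K := by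
  ext i j
  exact AlgHom.commutes W.r _

theorem eps_pM (y : Matrix IE IE R) :
    epsE * W.Rm (C.datE.pM y) * epsE = W.Rm (C.datE.pM y) := by
  rw [← Rm_eM, MatDat.pM_eq, MatDat.pM_pM, add_sub_cancel_right]

theorem eps_sub_pM (y : Matrix IE IE R) :
    epsE * W.Rm (y - C.datE.pM y) * epsE = - W.Rm (y - C.datE.pM y) := by
  rw [← Rm_eM, MatDat.pM_eq, map_sub, MatDat.pM_pM, sub_self, add_zero, zero_sub]
  ext i j
  simp [Rm_apply]

theorem eM_kr (M N : Matrix IE IE K) :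
    (W.datX hQ).eM (kr M N) = kr (epsE * M * epsE) (epsE * N * epsE) := by
  ext a b
  rw [MatDat.eM_apply, kr_apply, kr_apply, mul_epsE_apply, epsE_mul_apply, mul_epsE_apply,
    epsE_mul_apply]
  have h : (if Even ((W.datX hQ).deg b - (W.datX hQ).deg a) then (1 : K) else -1) =
      ((if a.1.1 = 0 then 1 else -1) * (if b.1.1 = 0 then 1 else -1)) *
        ((if a.1.2 = 0 then 1 else -1) * (if b.1.2 = 0 then 1 else -1)) := by
    rw [← sgn_mul, ← sgn_mul]
    have e : (W.datX hQ).deg b - (W.datX hQ).deg a =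
        (((b.1.1 : ℕ) : ℤ) - ((a.1.1 : ℕ) : ℤ)) + (((b.1.2 : ℕ) : ℤ) - ((a.1.2 : ℕ) : ℤ)) := by
      change degX b - degX a = _
      unfold degX
      ring
    rw [e]
    by_cases h1 : Even (((b.1.1 : ℕ) : ℤ) - ((a.1.1 : ℕ) : ℤ)) <;>
      by_cases h2 : Even (((b.1.2 : ℕ) : ℤ) - ((a.1.2 : ℕ) : ℤ))
    · rw [if_pos h1, if_pos h2, if_pos (h1.add h2)]; ring
    · rw [if_pos h1, if_neg h2, if_neg (by rw [Int.even_add]; tauto)]; ring
    · rw [if_neg h1, if_pos h2, if_neg (by rw [Int.even_add]; tauto)]; ring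
    · rw [if_neg h1, if_neg h2, if_pos (by rw [Int.even_add]; tauto)]; ring
  rw [h]
  ring

theorem eX_kr : (W.datX hQ).eK = kr (eKE k K) 1 + kr epsE (eKE k K) := by
  ext a b
  rw [Matrix.add_apply, kr_apply, kr_apply, eKE_apply, eKE_apply]
  change algebraMap k K ((eX (k := k)) a b) = _
  rw [eX_apply]
  have e1 : (1 : Matrix (Fin 2 × Fin 2) (Fin 2 × Fin 2) k) a.2 b.2 =
      (1 : Matrix (Fin 2) (Fin 2) k) a.2.1 b.2.1 * (1 : Matrix (Fin 2) (Fin 2) k) a.2.2 b.2.2 := by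
    rw [Matrix.one_apply, Matrix.one_apply, Matrix.one_apply]
    by_cases h1 : a.2.1 = b.2.1 <;> by_cases h2 : a.2.2 = b.2.2 <;> simp [h1, h2, Prod.ext_iff]
  have e2 : ∀ (i j : Fin 2), (1 : Matrix (Fin 2) (Fin 2) K) i j =
      algebraMap k K ((1 : Matrix (Fin 2) (Fin 2) k) i j) := by
    intro i j
    rw [Matrix.one_apply, Matrix.one_apply]
    split_ifs <;> simp
  have e3 : ∀ (i j : Fin 2 × Fin 2), (1 : Matrix IE IE K) i j =
      algebraMap k K ((1 : Matrix (Fin 2) (Fin 2) k) i.1 j.1 *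
        (1 : Matrix (Fin 2) (Fin 2) k) i.2 j.2) := by
    intro i j
    rw [Matrix.one_apply, Matrix.one_apply, Matrix.one_apply]
    by_cases h1 : i.1 = j.1 <;> by_cases h2 : i.2 = j.2 <;> simp [h1, h2, Prod.ext_iff]
  have e4 : ∀ (i j : Fin 2 × Fin 2), (epsE : Matrix IE IE K) i j =
      algebraMap k K ((epsM (k := k)) i.1 j.1 * (1 : Matrix (Fin 2) (Fin 2) k) i.2 j.2) := by
    rintro ⟨i, i'⟩ ⟨j, j'⟩
    rw [epsE, Matrix.diagonal_apply, Matrix.one_apply]
    fin_cases i <;> fin_cases j <;> by_cases h2 : i' = j' <;> simp [h2, epsM]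
  rw [e1, e2, e2, e3, e4]
  simp only [map_mul, map_add]
  ring

/-- multiplicativity -/
theorem iM_mul (x y x' y' : Matrix IE IE R) :
    W.iM (x * x') (C.datE.pM y * y') + W.iM (x * C.datE.eM x') ((y - C.datE.pM y) * y') =
      W.iM x y * W.iM x' y' := by
  have q1 : C.datE.pM (C.datE.pM y * y') = C.datE.pM y * C.datE.pM y' := by
    rw [MatDat.pM_mul, MatDat.pM_pM, sub_self, zero_mul, add_zero]
  have q2 : C.datE.pM ((y - C.datE.pM y) * y') = (y - C.datE.pM y) * (y' - C.datE.pM y') := by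
    rw [MatDat.pM_mul, map_sub, MatDat.pM_pM, sub_self, zero_mul, zero_add, sub_zero]
  have q3 : C.datE.pM y * y' - C.datE.pM y * C.datE.pM y' =
      C.datE.pM y * (y' - C.datE.pM y') := by rw [mul_sub]
  have q4 : (y - C.datE.pM y) * y' - (y - C.datE.pM y) * (y' - C.datE.pM y') =
      (y - C.datE.pM y) * C.datE.pM y' := by rw [← mul_sub, sub_sub_cancel]
  have e1 : (epsE : Matrix IE IE K) * epsE = 1 := epsE_sq
  unfold iM
  rw [q1, q2, q3, q4, Lm_mul, Lm_mul, Lm_eM, Rm_mul, Rm_mul, Rm_mul, Rm_mul]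
  rw [add_mul, mul_add, mul_add, kr_mul, kr_mul, kr_mul, kr_mul]
  have a1 : W.Lm x * (epsE * W.Lm x' * epsE) * epsE = W.Lm x * epsE * W.Lm x' := by
    rw [mul_assoc (W.Lm x), mul_assoc (epsE * W.Lm x'), e1, mul_one, mul_assoc]
  have a2 : W.Lm x * (epsE * W.Lm x' * epsE) = W.Lm x * epsE * (W.Lm x' * epsE) := by
    rw [mul_assoc epsE, ← mul_assoc]
  have a3 : W.Lm x * (W.Lm x' * epsE) = W.Lm x * W.Lm x' * epsE := (mul_assoc _ _ _).symm
  rw [a1, a2, a3]
  abel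

/-- compatibility with the differentials -/
theorem iM_dM (x y : Matrix IE IE R) : (W.datX hQ).dM (W.iM x y) =
    W.iM (C.datE.dM x) y + W.iM (C.datE.eM x) (C.datE.dM y) := by
  have e1 : (epsE : Matrix IE IE K) * epsE = 1 := epsE_sq
  have hP := W.eps_pM y
  have hQ' := W.eps_sub_pM y
  have hL := W.Lm_eM x
  have d1 : W.Lm (C.datE.dM x) = eKE k K * W.Lm x - epsE * W.Lm x * epsE * eKE k K := by
    rw [MatDat.dM_apply, Lm_sub, Lm_mul, Lm_mul, Lm_eK, Lm_eM]
  have d2 : W.Rm (C.datE.pM (C.datE.dM y)) = eKE k K * W.Rm (y - C.datE.pM y) +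
      W.Rm (y - C.datE.pM y) * eKE k K := by
    have h : C.datE.pM (C.datE.dM y) = C.datE.dM (y - C.datE.pM y) := by
      rw [map_sub, MatDat.dM_pM, sub_sub_cancel]
    rw [h, MatDat.dM_apply, Rm_sub, Rm_mul, Rm_mul, Rm_eK, Rm_eM, hQ', neg_mul, sub_neg_eq_add]
  have d3 : W.Rm (C.datE.dM y - C.datE.pM (C.datE.dM y)) = eKE k K * W.Rm (C.datE.pM y) -
      W.Rm (C.datE.pM y) * eKE k K := by
    have h : C.datE.dM y - C.datE.pM (C.datE.dM y) = C.datE.dM (C.datE.pM y) := by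
      rw [MatDat.dM_pM]
    rw [h, MatDat.dM_apply, Rm_sub, Rm_mul, Rm_mul, Rm_eK, Rm_eM, hP]
  rw [MatDat.dM_apply, eX_kr]
  unfold iM
  rw [d1, d2, d3, hL, map_add, eM_kr, eM_kr, hP, hQ']
  generalize W.Lm x = L
  generalize W.Rm (C.datE.pM y) = P
  generalize W.Rm (y - C.datE.pM y) = Q
  have he : (epsE : Matrix IE IE K) * eKE k K = - (eKE k K * epsE) := epsE_eKE
  have a2 : epsE * L * epsE * epsE = epsE * L := by
    rw [mul_assoc (epsE * L), e1, mul_one]
  have a3 : (epsE * L * epsE * eKE k K) * epsE = - (epsE * L * eKE k K) := by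
    rw [mul_assoc (epsE * L), he, mul_neg, neg_mul, mul_assoc (epsE * L), mul_assoc (eKE k K), e1,
      mul_one]
  have a4 : epsE * (L * epsE) = epsE * L * epsE := (mul_assoc _ _ _).symm
  have a5 : eKE k K * (L * epsE) = eKE k K * L * epsE := (mul_assoc _ _ _).symm
  simp only [add_mul, mul_add, kr_mul, kr_neg_right, kr_add_right, kr_sub_left,
    kr_sub_right, one_mul, mul_one, a2, a3, a4, a5, sub_mul, kr_neg_left, neg_mul]
  abel

theorem iM_pM (x y : Matrix IE IE R) : (W.datX hQ).pM (W.iM x y) =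
    W.iM (C.datE.pM x) (C.datE.pM y) + W.iM (x - C.datE.pM x) (y - C.datE.pM y) := by
  ext a b
  rw [MatDat.pM_apply, Matrix.add_apply, iM_apply, iM_apply, iM_apply]
  have e : (W.datX hQ).deg b - (W.datX hQ).deg a =
      (((b.1.1 : ℕ) : ℤ) - ((a.1.1 : ℕ) : ℤ)) + (((b.1.2 : ℕ) : ℤ) - ((a.1.2 : ℕ) : ℤ)) := by
    change degX b - degX a = _
    unfold degX
    ring
  have p1 : ∀ (z : Matrix IE IE R) (i j : IE), C.datE.pM z i j =
      if Even (((j.1 : ℕ) : ℤ) - ((i.1 : ℕ) : ℤ)) then z i j else 0 := fun z i j => rfl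
  rw [e, Matrix.sub_apply, Matrix.sub_apply, p1, p1]
  by_cases h1 : Even (((b.1.1 : ℕ) : ℤ) - ((a.1.1 : ℕ) : ℤ)) <;>
    by_cases h2 : Even (((b.1.2 : ℕ) : ℤ) - ((a.1.2 : ℕ) : ℤ))
  · rw [if_pos h1, if_pos h2, if_pos (h1.add h2)]; simp
  · rw [if_pos h1, if_neg h2, if_neg (by rw [Int.even_add]; tauto)]; simp
  · rw [if_neg h1, if_pos h2, if_neg (by rw [Int.even_add]; tauto)]; simp
  · rw [if_neg h1, if_neg h2, if_pos (by rw [Int.even_add]; tauto)]; simp

theorem iM_one : W.iM 1 1 = 1 := by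
  have h : C.datE.pM 1 = 1 := by rw [C.datE.pM_gr C.datE.one_grM, if_pos Even.zero]
  rw [iM, h, sub_self, Lm_one, Rm_one, kr_one]
  ext a b
  rw [Matrix.add_apply, kr_apply, Rm_apply, Matrix.zero_apply, map_zero, mul_zero, add_zero]

/-- **the map of dg algebras `AE ⊗ AE → AX`** -/
def iX : DGA.NHom (DGA.tens C.AE.toDGA C.AE.toDGA) (W.AX hQ).toDGA where
  f := W.iXl hQ
  D := fun v => by
    refine tens_ext (f := W.iXl hQ ∘ₗ SD.tD C.AE.toSD C.AE.toSD)
      (g := (W.AX hQ).D ∘ₗ W.iXl hQ) (fun x y => m_ext _ ?_) v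
    rw [LinearMap.comp_apply, LinearMap.comp_apply, SD.tD_tmul, map_add, map_add]
    exact (W.iM_dM hQ (mv C.datE x) (mv C.datE y)).symm
  P := fun v => by
    refine tens_ext (f := W.iXl hQ ∘ₗ SD.tP C.AE.toSD C.AE.toSD)
      (g := (W.AX hQ).P ∘ₗ W.iXl hQ) (fun x y => m_ext _ ?_) v
    rw [LinearMap.comp_apply, LinearMap.comp_apply, SD.tP_tmul, map_add, map_add]
    exact (W.iM_pM hQ (mv C.datE x) (mv C.datE y)).symm
  mul := fun u v => by
    refine out_ext (A := C.AE.toDGA) (B := C.AE.toDGA) (X := C.AE.toSD) (Y := C.AE.toSD)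
      (Z := (W.AX hQ).toSD)
      (f := (tmulT C.AE.toDGA C.AE.toDGA).compr₂ (W.iXl hQ))
      (g := ((W.AX hQ).mul.compl₂ (W.iXl hQ)) ∘ₗ W.iXl hQ) (fun x y x' y' => m_ext _ ?_) u v
    change mv (W.datX hQ) (W.iXl hQ (tmulT C.AE.toDGA C.AE.toDGA (x ⊗ₜ y) (x' ⊗ₜ y'))) =
      W.iM (mv C.datE x) (mv C.datE y) * W.iM (mv C.datE x') (mv C.datE y')
    rw [tmulT_tmul, map_add, map_add, ← W.iM_mul]
    rfl

theorem iX_f (z : C.AE.V ⊗[k] C.AE.V) : (W.iX hQ).f z = W.iXl hQ z := rfl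

theorem iX_one : (W.iX hQ).f (1 : (DGA.tens C.AE.toDGA C.AE.toDGA).V) = (1 : (W.AX hQ).V) := by
  refine m_ext _ ?_
  change W.iM (mv C.datE C.AE.one) (mv C.datE C.AE.one) = 1
  rw [mv_one, iM_one]

end SurR

end EK
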