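import Pool.Agent.H34.TE.LnkB

/-!
# LnkC : the coordinate `t` of `AX` and its relations with `AE ⊗ AE`

* `tX` even, diagonal, `tX_comm : t i(z) - i(z) t = i (delta z)`, `D_tX : D t = i eta`,
  `tX_pow : t ^ q = t + i phi`.
-/

set_option autoImplicit false

open NC
open scoped Kronecker TensorProduct

noncomputable section

namespace EK

open H36.NX

variable {q : ℕ} {k : Type} [Field k] {R : Type} [CommRing R] [Algebra k R]
  {K : Type} [CommRing K] [Algebra k K]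

/-- the chart of an index -/
def pcT (c : Fin 2) : Pc := if c = 0 then Pc.X else Pc.Y

theorem pcT_zero : pcT 0 = Pc.X := rfl
theorem pcT_one : pcT 1 = Pc.Y := rfl

theorem pcc_diag (c : Fin 2) : pcc c c = some (pcT c) := by
  fin_cases c <;> rfl

namespace CurR

variable (C : CurR q k R)

/-- the function `h` of an index -/
def hT (c : Fin 2) : R := if c = 0 then 0 else C.h

theorem hT_zero : C.hT 0 = 0 := rfl
theorem hT_one : C.hT 1 = C.h := rfl

/-- the derivation `delta` on matrices -/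
def dlM : Matrix (Fin 2 × Fin 2) (Fin 2 × Fin 2) R →ₗ[k] Matrix (Fin 2 × Fin 2) (Fin 2 × Fin 2) R where
  toFun x := fun i j => (C.hT j.1 - C.hT i.1) * x i j
  map_add' x y := by
    funext i j
    change (C.hT j.1 - C.hT i.1) * (x i j + y i j) = _
    rw [mul_add]
    rfl
  map_smul' c x := by
    funext i j
    change (C.hT j.1 - C.hT i.1) * (c • x i j) = c • ((C.hT j.1 - C.hT i.1) * x i j)
    rw [mul_smul_comm]

theorem dlM_apply (x : Matrix (Fin 2 × Fin 2) (Fin 2 × Fin 2) R) (i j : Fin 2 × Fin 2) :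
    C.dlM x i j = (C.hT j.1 - C.hT i.1) * x i j := rfl

theorem dlM_mem {x : Matrix (Fin 2 × Fin 2) (Fin 2 × Fin 2) R} (hx : x ∈ C.datE.mats) :
    C.dlM x ∈ C.datE.mats := by
  rintro ⟨c, g⟩ ⟨d, g'⟩
  rw [dlM_apply]
  have hx' : x (c, g) (d, g') ∈ C.SE (c, g) (d, g') := hx (c, g) (d, g')
  change _ ∈ C.SE (c, g) (d, g')
  fin_cases c <;> fin_cases d
  · change (C.hT 0 - C.hT 0) * _ ∈ _
    rw [sub_self, zero_mul]
    exact Submodule.zero_mem _
  · rw [C.SE_some (s := Pc.R) rfl]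
    trivial
  · rw [C.SE_none rfl, Submodule.mem_bot] at hx'
    change (C.hT 0 - C.hT 1) * x (1, g) (0, g') ∈ _
    have h0 : x (1, g) (0, g') = 0 := hx'
    rw [h0, mul_zero]
    exact Submodule.zero_mem _
  · change (C.hT 1 - C.hT 1) * _ ∈ _
    rw [sub_self, zero_mul]
    exact Submodule.zero_mem _

/-- the derivation `delta` of `AE` -/
def dlE : C.AE.V →ₗ[k] C.AE.V := C.dlM.restrict (fun _ hx => C.dlM_mem hx)

theorem mv_dlE (x : C.AE.V) (i j : Fin 2 × Fin 2) :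
    mv C.datE (C.dlE x) i j = (C.hT j.1 - C.hT i.1) * mv C.datE x i j := rfl

/-- the matrix of `eta` -/
def etaM : Matrix (Fin 2 × Fin 2) (Fin 2 × Fin 2) R := fun i j =>
  if i.1 = 0 ∧ j.1 = 1 ∧ i.2 = j.2 then - C.h else 0

/-- the element `eta` of `AE` -/
def etaE : C.AE.V := EK.mk C.datE C.etaM (by
  rintro i j
  change C.etaM i j ∈ C.SE i j
  unfold etaM
  split_ifs with h
  · rw [C.SE_some (s := Pc.R) (by rw [h.1, h.2.1]; rfl)]
    trivial
  · exact Submodule.zero_mem _)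

theorem mv_etaE : mv C.datE C.etaE = C.etaM := rfl

/-- the element `phi` of `AE` -/
def phE (hq : (q : k) = 0) : C.AE.V := EK.mk C.datE (Matrix.diagonal (fun i => C.fa (pcT i.1))) (by
  intro i j
  change Matrix.diagonal (fun i => C.fa (pcT i.1)) i j ∈ C.SE i j
  by_cases h : i = j
  · subst h
    rw [Matrix.diagonal_apply_eq, C.SE_some (pcc_diag i.1), sub_self]
    exact C.fa_mem hq _
  · rw [Matrix.diagonal_apply_ne _ h]
    exact Submodule.zero_mem _)

theorem mv_phE (hq : (q : k) = 0) :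
    mv C.datE (C.phE hq) = Matrix.diagonal (fun i => C.fa (pcT i.1)) := rfl

end CurR

namespace SurR

variable {C : CurR q k R} (W : SurR C K) {p : ℕ} (hQ : QP p q k)

theorem tt_hT (c c' : Fin 2) : W.tt (pcT c) (pcT c') = W.t - W.l (C.hT c) + W.r (C.hT c') := by
  fin_cases c <;> fin_cases c'
  · change W.t - 0 + 0 = W.t - W.l 0 + W.r 0
    rw [map_zero, map_zero]
  · change W.t - 0 + W.r C.h = W.t - W.l 0 + W.r C.h
    rw [map_zero]
  · change W.t - W.l C.h + 0 = W.t - W.l C.h + W.r 0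
    rw [map_zero]
  · rfl

/-- the coordinate `t` as an element of `AX` -/
def tX : (W.AX hQ).V :=
  EK.mk (W.datX hQ) (Matrix.diagonal (fun a => W.tt (pcT a.1.1) (pcT a.1.2))) (by
    intro a b
    change Matrix.diagonal (fun a => W.tt (pcT a.1.1) (pcT a.1.2)) a b ∈ W.SX a b
    by_cases h : a = b
    · subst h
      rw [Matrix.diagonal_apply_eq, W.SX_some (pcc_diag a.1.1) (pcc_diag a.1.2), sub_self,
        sub_self]
      exact W.tt_mem hQ _ _
    · rw [Matrix.diagonal_apply_ne _ h]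
      exact Submodule.zero_mem _)

theorem mv_tX : mv (W.datX hQ) (W.tX hQ) =
    Matrix.diagonal (fun a => W.tt (pcT a.1.1) (pcT a.1.2)) := rfl

theorem tX_gr : W.tX hQ ∈ (W.AX hQ).gr 0 := by
  rw [mem_gr_iff]
  intro i j h
  rw [mv_tX, Matrix.diagonal_apply_ne]
  rintro rfl
  exact h (sub_self _)

theorem tX_P : (W.AX hQ).P (W.tX hQ) = W.tX hQ := by
  rw [(W.AX hQ).P_gr 0 _ (W.tX_gr hQ), if_pos Even.zero]

theorem mv_pow (x : (W.AX hQ).V) (n : ℕ) :
    mv (W.datX hQ) (x ^ n) = (mv (W.datX hQ) x) ^ n := by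
  induction n with
  | zero =>
    rw [pow_zero, pow_zero]
    exact mv_one (W.datX hQ)
  | succ n ih => rw [pow_succ, pow_succ, mv_mul', ih]

theorem mv_tX_pow (n : ℕ) : mv (W.datX hQ) (W.tX hQ ^ n) =
    Matrix.diagonal (fun a => W.tt (pcT a.1.1) (pcT a.1.2) ^ n) := by
  rw [mv_pow, mv_tX, Matrix.diagonal_pow]
  rfl

/-- the derivation of the tensor product -/
def dlX (C : CurR q k R) : C.AE.V ⊗[k] C.AE.V →ₗ[k] C.AE.V ⊗[k] C.AE.V :=
  TensorProduct.map C.dlE LinearMap.id - TensorProduct.map LinearMap.id C.dlE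

/-- the element `eta` of the tensor product -/
def etaX (C : CurR q k R) : C.AE.V ⊗[k] C.AE.V :=
  C.etaE ⊗ₜ C.AE.one - C.AE.one ⊗ₜ C.etaE

/-- the element `phi` of the tensor product -/
def phX (C : CurR q k R) (hq : (q : k) = 0) : C.AE.V ⊗[k] C.AE.V :=
  C.phE hq ⊗ₜ C.AE.one - C.AE.one ⊗ₜ C.phE hq

theorem tX_comm (z : C.AE.V ⊗[k] C.AE.V) :
    (W.AX hQ).mul (W.tX hQ) (W.iXl hQ z) - (W.AX hQ).mul (W.iXl hQ z) (W.tX hQ) =
      W.iXl hQ (dlX C z) := by
  refine tens_ext (f := (W.AX hQ).mul (W.tX hQ) ∘ₗ W.iXl hQ -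
    (W.AX hQ).mul.flip (W.tX hQ) ∘ₗ W.iXl hQ) (g := W.iXl hQ ∘ₗ dlX C)
    (fun x y => m_ext _ ?_) z
  change mv (W.datX hQ) ((W.AX hQ).mul (W.tX hQ) (W.iXl hQ (x ⊗ₜ y)) -
    (W.AX hQ).mul (W.iXl hQ (x ⊗ₜ y)) (W.tX hQ)) =
      mv (W.datX hQ) (W.iXl hQ (C.dlE x ⊗ₜ y - x ⊗ₜ C.dlE y))
  rw [map_sub, map_sub, map_sub, mv_mul, mv_mul, mv_tX]
  ext a b
  rw [Matrix.sub_apply, Matrix.sub_apply, Matrix.diagonal_mul, Matrix.mul_diagonal, iXl_tmul,
    iXl_tmul, iXl_tmul, C.mv_dlE, C.mv_dlE, tt_hT, tt_hT, map_mul, map_mul, map_sub, map_sub]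
  ring

theorem sg_self (a : IX) : (sg a a : K) = 1 := by
  unfold sg
  rw [if_pos (by rw [sub_self]; exact Even.zero)]

theorem tX_pow : (W.tX hQ) ^ q = W.tX hQ + W.iXl hQ (phX C hQ.cast_eq) := by
  refine m_ext _ ?_
  rw [mv_tX_pow, map_add, phX, map_sub, map_sub, mv_tX, mv_iXl, mv_iXl, C.mv_phE, mv_one]
  ext a b
  rw [Matrix.add_apply, Matrix.sub_apply, iM_apply, iM_apply]
  by_cases h : a = b
  · subst h
    rw [Matrix.diagonal_apply_eq, Matrix.diagonal_apply_eq, Matrix.diagonal_apply_eq,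
      Matrix.diagonal_apply_eq, Matrix.one_apply_eq, Matrix.one_apply_eq, sg_self, W.tt_pow hQ,
      map_one, map_one]
    ring
  · rw [Matrix.diagonal_apply_ne _ h, Matrix.diagonal_apply_ne _ h]
    have h0 : ∀ (f g : IE → R), W.l (Matrix.diagonal f (a.1.1, a.2.1) (b.1.1, b.2.1)) *
        W.r (Matrix.diagonal g (a.1.2, a.2.2) (b.1.2, b.2.2)) = 0 := by
      intro f g
      by_cases h1 : ((a.1.1, a.2.1) : IE) = (b.1.1, b.2.1)
      · by_cases h2 : ((a.1.2, a.2.2) : IE) = (b.1.2, b.2.2)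
        · exfalso
          apply h
          simp only [Prod.ext_iff] at h1 h2 ⊢
          exact ⟨⟨h1.1, h2.1⟩, h1.2, h2.2⟩
        · rw [Matrix.diagonal_apply_ne _ h2, map_zero, mul_zero]
      · rw [Matrix.diagonal_apply_ne _ h1, map_zero, zero_mul]
    have h1 := h0 (fun i => C.fa (pcT i.1)) (fun _ => 1)
    have h2 := h0 (fun _ => 1) (fun i => C.fa (pcT i.1))
    rw [Matrix.diagonal_one] at h1 h2
    rw [h1, h2]
    ring

theorem D_tX : (W.AX hQ).D (W.tX hQ) = W.iXl hQ (etaX C) := by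
  refine m_ext _ ?_
  have hE : (W.datX hQ).eM (mv (W.datX hQ) (W.tX hQ)) = mv (W.datX hQ) (W.tX hQ) := by
    rw [MatDat.pM_eq, ← mv_P, tX_P, add_sub_cancel_right]
  rw [mv_D, MatDat.dM_apply, hE, etaX, map_sub, map_sub, mv_iXl, mv_iXl, mv_one, C.mv_etaE,
    mv_tX, eX_kr]
  ext a b
  rw [Matrix.sub_apply, Matrix.sub_apply, Matrix.mul_diagonal, Matrix.diagonal_mul,
    Matrix.add_apply, kr_apply, kr_apply, iM_apply, iM_apply, eKE_apply, eKE_apply, tt_hT, tt_hT]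
  obtain ⟨⟨c, c'⟩, g, g'⟩ := a
  obtain ⟨⟨d, d'⟩, f, f'⟩ := b
  have hR : ∀ (i j : Fin 2) (g g' : Fin 2), (1 : Matrix IE IE R) (i, g) (j, g') =
      if i = j ∧ g = g' then 1 else 0 := by
    intro i j g g'
    rw [Matrix.one_apply]
    simp [Prod.ext_iff]
  have hK : ∀ (i j : Fin 2) (g g' : Fin 2), (1 : Matrix IE IE K) (i, g) (j, g') =
      if i = j ∧ g = g' then 1 else 0 := by
    intro i j g g'
    rw [Matrix.one_apply]
    simp [Prod.ext_iff]
  have hK2 : ∀ (g g' : Fin 2), (1 : Matrix (Fin 2) (Fin 2) K) g g' = if g = g' then 1 else 0 := by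
    intro g g'
    rw [Matrix.one_apply]
  have hE : ∀ (i j : Fin 2) (g g' : Fin 2), (epsE : Matrix IE IE K) (i, g) (j, g') =
      if i = j ∧ g = g' then (if i = 0 then 1 else -1) else 0 := by
    intro i j g g'
    rw [epsE, Matrix.diagonal_apply]
    simp [Prod.ext_iff]
  simp only [CurR.etaM, hR, hK, hK2, hE, sg]
  by_cases hg : g = f <;> by_cases hg' : g' = f' <;> fin_cases c <;> fin_cases c' <;>
    fin_cases d <;> fin_cases d' <;>
    simp [hg, hg', e12, CurR.hT, Int.even_iff]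

end SurR

end EK
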