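import Pool.Agent.H34.TE.Base
import Pool.Agent.H15.NC.TensQ
import Pool.Agent.H36.NX.DDR
import Pool.Agent.H36.NX.Push

/-!
# Outer tensor products of perfect bimodules are perfect

`PF_out : PF A X → PF B Y → PF (DGA.tens A B) (X.out Y)` and
`PF_tens_diag : PF A diag → PF B diag → PF (DGA.tens A B) diag`.
-/

set_option autoImplicit false

open scoped TensorProduct

noncomputable section

namespace NC

variable {k : Type} [Field k]

section

variable {A B A' B' : DGA k}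

/-- extensionality for identities with an argument in the algebra and one in the bimodule -/
theorem out_ext {A B : DGA k} {X Y Z : SD k}
    {f g : A.V ⊗[k] B.V →ₗ[k] X.V ⊗[k] Y.V →ₗ[k] Z.V}
    (h : ∀ a b x y, f (a ⊗ₜ b) (x ⊗ₜ y) = g (a ⊗ₜ b) (x ⊗ₜ y)) (t : A.V ⊗[k] B.V)
    (v : X.V ⊗[k] Y.V) : f t v = g t v := by
  refine tens_ext (f := f.flip v) (g := g.flip v) (fun a b => ?_) t
  change f (a ⊗ₜ b) v = g (a ⊗ₜ b) v
  exact tens_ext (f := f (a ⊗ₜ b)) (g := g (a ⊗ₜ b)) (fun x y => h a b x y) v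

theorem out_l {X Y : SD k} (x : Bi A A' X) (y : Bi B B' Y) (a : A.V) (b : B.V) (u : X.V)
    (v : Y.V) : (x.out y).l.act (a ⊗ₜ b : A.V ⊗[k] B.V) (u ⊗ₜ v : X.V ⊗[k] Y.V) =
      x.l.act a u ⊗ₜ y.l.act (B.P b) v + x.l.act a (X.E u) ⊗ₜ y.l.act (b - B.P b) v := rfl

theorem out_r {X Y : SD k} (x : Bi A A' X) (y : Bi B B' Y) (a : A'.V) (b : B'.V) (u : X.V)
    (v : Y.V) : (x.out y).r.act (u ⊗ₜ v : X.V ⊗[k] Y.V) (a ⊗ₜ b : A'.V ⊗[k] B'.V) =
      x.r.act u (A'.P a) ⊗ₜ y.r.act v b + x.r.act u (a - A'.P a) ⊗ₜ y.r.act (Y.E v) b := rfl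

variable {X X' X'' : BMod A A'} {Y Y' Y'' : BMod B B'}

/-- functoriality of the outer tensor product -/
def BMod.outMap (f : BMod.Hom X X') (g : BMod.Hom Y Y') : BMod.Hom (X.out Y) (X'.out Y') where
  toHom := f.toHom.tens g.toHom
  isHom := ⟨fun t v => by
    refine out_ext (A := A) (B := B) (X := X.N) (Y := Y.N) (Z := X'.N.tens Y'.N)
      (f := (X.b.out Y.b).l.act.compr₂ (f.toHom.tens g.toHom).f)
      (g := (X'.b.out Y'.b).l.act.compl₂ (f.toHom.tens g.toHom).f)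
      (fun a b x y => ?_) t v
    change (f.toHom.tens g.toHom).f ((X.b.out Y.b).l.act (a ⊗ₜ b : A.V ⊗[k] B.V)
      (x ⊗ₜ y : X.N.V ⊗[k] Y.N.V)) = (X'.b.out Y'.b).l.act (a ⊗ₜ b : A.V ⊗[k] B.V)
      (f.f x ⊗ₜ g.f y : X'.N.V ⊗[k] Y'.N.V)
    rw [out_l, out_l, map_add, SD.Hom.tens_tmul, SD.Hom.tens_tmul, f.isHom.l a x,
      f.isHom.l a _, g.isHom.l _ y, g.isHom.l _ y, f.toHom.E],
   fun v t => by
    refine out_ext (A := A') (B := B') (X := X.N) (Y := Y.N) (Z := X'.N.tens Y'.N)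
      (f := (X.b.out Y.b).r.act.flip.compr₂ (f.toHom.tens g.toHom).f)
      (g := (X'.b.out Y'.b).r.act.flip.compl₂ (f.toHom.tens g.toHom).f)
      (fun a b x y => ?_) t v
    change (f.toHom.tens g.toHom).f ((X.b.out Y.b).r.act
      (x ⊗ₜ y : X.N.V ⊗[k] Y.N.V) (a ⊗ₜ b : A'.V ⊗[k] B'.V)) = (X'.b.out Y'.b).r.act
      (f.f x ⊗ₜ g.f y : X'.N.V ⊗[k] Y'.N.V) (a ⊗ₜ b : A'.V ⊗[k] B'.V)
    rw [out_r, out_r, map_add, SD.Hom.tens_tmul, SD.Hom.tens_tmul, f.isHom.r x _,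
      f.isHom.r x _, g.isHom.r _ b, g.isHom.r _ b, g.toHom.E]⟩

/-- the identity of a bimodule -/
def BMod.Hom.one (X : BMod A B) : BMod.Hom X X where
  toHom := SD.Hom.id X.N
  isHom := ⟨fun _ _ => rfl, fun _ _ => rfl⟩

theorem out_qiL {f : BMod.Hom X X'} (hf : f.toHom.QI) (Y : BMod B B') :
    (BMod.outMap f (BMod.Hom.one Y)).toHom.QI := SD.Hom.QI.tensL hf Y.N

theorem out_qiR {g : BMod.Hom Y Y'} (hg : g.toHom.QI) (X : BMod A A') :
    (BMod.outMap (BMod.Hom.one X) g).toHom.QI := SD.Hom.QI.tensR hg X.N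

theorem out_sesL {f : BMod.Hom X X'} {g : BMod.Hom X' X''} (h : SD.SES f.toHom g.toHom)
    (Y : BMod B B') : SD.SES (BMod.outMap f (BMod.Hom.one Y)).toHom
      (BMod.outMap g (BMod.Hom.one Y)).toHom := SD.SES.tensL h Y.N

theorem out_sesR {f : BMod.Hom Y Y'} {g : BMod.Hom Y' Y''} (h : SD.SES f.toHom g.toHom)
    (X : BMod A A') : SD.SES (BMod.outMap (BMod.Hom.one X) f).toHom
      (BMod.outMap (BMod.Hom.one X) g).toHom := SD.SES.tensR h X.N

end

section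

variable {A B : DGA k}

/-- homotopy retracts in the first variable -/
theorem out_retL {X F : BMod A A} (H : HRet X F) (Y : BMod B B) :
    Nonempty (HRet (X.out Y) (F.out Y)) := by
  obtain ⟨H', -, -, hE⟩ := HRet.exists_odd' H
  have hE' : ∀ x, H'.h (X.N.E x) = - X.N.E (H'.h x) := fun x => by rw [hE, neg_neg]
  refine ⟨{ s := BMod.outMap H'.s (BMod.Hom.one Y)
            r := BMod.outMap H'.r (BMod.Hom.one Y)
            h := TensorProduct.map H'.h LinearMap.id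
            hl := fun t v => ?_
            hr := fun v t => ?_
            eq := fun v => ?_ }⟩
  · refine out_ext (A := A) (B := B) (X := X.N) (Y := Y.N) (Z := X.N.tens Y.N)
      (f := (X.b.out Y.b).l.act.compr₂ (TensorProduct.map H'.h LinearMap.id))
      (g := ((X.b.out Y.b).l.act ∘ₗ (A.toSD.tens B.toSD).E).compl₂
        (TensorProduct.map H'.h LinearMap.id))
      (fun a b x y => ?_) t v
    have hEt : (A.toSD.tens B.toSD).E (a ⊗ₜ b) = A.E a ⊗ₜ B.E b := SD.tens_E _ _ a b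
    change TensorProduct.map H'.h LinearMap.id ((X.b.out Y.b).l.act (a ⊗ₜ b : A.V ⊗[k] B.V)
      (x ⊗ₜ y : X.N.V ⊗[k] Y.N.V)) = (X.b.out Y.b).l.act ((A.toSD.tens B.toSD).E (a ⊗ₜ b))
      (H'.h x ⊗ₜ y : X.N.V ⊗[k] Y.N.V)
    rw [hEt, out_l, out_l, map_add, TensorProduct.map_tmul, TensorProduct.map_tmul, H'.hl, H'.hl,
      hE', B.PE, SD.E_apply B.toSD b]
    simp only [LinearMap.id_apply, map_sub, map_add, map_neg, LinearMap.sub_apply,
      LinearMap.add_apply, TensorProduct.tmul_sub, TensorProduct.tmul_add,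
      TensorProduct.neg_tmul]
    abel
  · refine out_ext (A := A) (B := B) (X := X.N) (Y := Y.N) (Z := X.N.tens Y.N)
      (f := (X.b.out Y.b).r.act.flip.compr₂ (TensorProduct.map H'.h LinearMap.id))
      (g := (X.b.out Y.b).r.act.flip.compl₂ (TensorProduct.map H'.h LinearMap.id))
      (fun a b x y => ?_) t v
    change TensorProduct.map H'.h LinearMap.id ((X.b.out Y.b).r.act
      (x ⊗ₜ y : X.N.V ⊗[k] Y.N.V) (a ⊗ₜ b : A.V ⊗[k] B.V)) = (X.b.out Y.b).r.act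
      (H'.h x ⊗ₜ y : X.N.V ⊗[k] Y.N.V) (a ⊗ₜ b : A.V ⊗[k] B.V)
    rw [out_r, out_r, map_add, TensorProduct.map_tmul, TensorProduct.map_tmul, H'.hr, H'.hr]
    rfl
  · refine tens_ext (f := TensorProduct.map H'.r.f LinearMap.id ∘ₗ
        TensorProduct.map H'.s.f (LinearMap.id : Y.N.V →ₗ[k] Y.N.V))
      (g := LinearMap.id + SD.tD X.N Y.N ∘ₗ TensorProduct.map H'.h LinearMap.id +
        TensorProduct.map H'.h LinearMap.id ∘ₗ SD.tD X.N Y.N) (fun x y => ?_) v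
    simp only [LinearMap.comp_apply, LinearMap.add_apply, LinearMap.id_apply,
      TensorProduct.map_tmul, SD.tD_tmul, map_add, H'.eq, hE', TensorProduct.add_tmul,
      TensorProduct.neg_tmul]
    abel

/-- homotopy retracts in the second variable -/
theorem out_retR {Y F : BMod B B} (H : HRet Y F) (X : BMod A A) :
    Nonempty (HRet (X.out Y) (X.out F)) := by
  obtain ⟨H', -, -, hE⟩ := HRet.exists_odd' H
  have hE' : ∀ x, H'.h (Y.N.E x) = - Y.N.E (H'.h x) := fun x => by rw [hE, neg_neg]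
  refine ⟨{ s := BMod.outMap (BMod.Hom.one X) H'.s
            r := BMod.outMap (BMod.Hom.one X) H'.r
            h := TensorProduct.map X.N.E H'.h
            hl := fun t v => ?_
            hr := fun v t => ?_
            eq := fun v => ?_ }⟩
  · refine out_ext (A := A) (B := B) (X := X.N) (Y := Y.N) (Z := X.N.tens Y.N)
      (f := (X.b.out Y.b).l.act.compr₂ (TensorProduct.map X.N.E H'.h))
      (g := ((X.b.out Y.b).l.act ∘ₗ (A.toSD.tens B.toSD).E).compl₂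
        (TensorProduct.map X.N.E H'.h))
      (fun a b x y => ?_) t v
    have hEt : (A.toSD.tens B.toSD).E (a ⊗ₜ b) = A.E a ⊗ₜ B.E b := SD.tens_E _ _ a b
    change TensorProduct.map X.N.E H'.h ((X.b.out Y.b).l.act (a ⊗ₜ b : A.V ⊗[k] B.V)
      (x ⊗ₜ y : X.N.V ⊗[k] Y.N.V)) = (X.b.out Y.b).l.act ((A.toSD.tens B.toSD).E (a ⊗ₜ b))
      (X.N.E x ⊗ₜ H'.h y : X.N.V ⊗[k] Y.N.V)
    rw [hEt, out_l, out_l, map_add, TensorProduct.map_tmul, TensorProduct.map_tmul, H'.hl, H'.hl,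
      X.b.l.E_act, X.b.l.E_act, B.PE, SD.E_apply B.toSD b, B.EP, X.N.EE, map_sub B.E, B.EP,
      SD.E_apply B.toSD b]
  · refine out_ext (A := A) (B := B) (X := X.N) (Y := Y.N) (Z := X.N.tens Y.N)
      (f := (X.b.out Y.b).r.act.flip.compr₂ (TensorProduct.map X.N.E H'.h))
      (g := (X.b.out Y.b).r.act.flip.compl₂ (TensorProduct.map X.N.E H'.h))
      (fun a b x y => ?_) t v
    change TensorProduct.map X.N.E H'.h ((X.b.out Y.b).r.act
      (x ⊗ₜ y : X.N.V ⊗[k] Y.N.V) (a ⊗ₜ b : A.V ⊗[k] B.V)) = (X.b.out Y.b).r.act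
      (X.N.E x ⊗ₜ H'.h y : X.N.V ⊗[k] Y.N.V) (a ⊗ₜ b : A.V ⊗[k] B.V)
    rw [out_r, out_r, map_add, TensorProduct.map_tmul, TensorProduct.map_tmul, H'.hr, H'.hr,
      X.b.r.E_act, X.b.r.E_act, A.EP, map_sub A.E, A.EP, SD.E_apply A.toSD a, hE']
    simp only [map_sub, map_add, map_neg, LinearMap.neg_apply, TensorProduct.sub_tmul,
      TensorProduct.add_tmul, TensorProduct.tmul_neg]
    abel
  · refine tens_ext (f := TensorProduct.map LinearMap.id H'.r.f ∘ₗ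
        TensorProduct.map (LinearMap.id : X.N.V →ₗ[k] X.N.V) H'.s.f)
      (g := LinearMap.id + SD.tD X.N Y.N ∘ₗ TensorProduct.map X.N.E H'.h +
        TensorProduct.map X.N.E H'.h ∘ₗ SD.tD X.N Y.N) (fun x y => ?_) v
    simp only [LinearMap.comp_apply, LinearMap.add_apply, LinearMap.id_apply,
      TensorProduct.map_tmul, SD.tD_tmul, map_add, H'.eq, X.N.EE, X.N.DE, TensorProduct.tmul_add,
      TensorProduct.neg_tmul]
    abel

end

/-! ### shifts -/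

section

variable {A B A' B' : DGA k}

/-- the isomorphism `(X ⊗ Y)[1] = X[1] ⊗ Y` -/
def outShL (X : BMod A A') (Y : BMod B B') : BMod.Hom (X.out Y).sh (X.sh.out Y) where
  f := (LinearMap.id : X.N.V ⊗[k] Y.N.V →ₗ[k] X.N.V ⊗[k] Y.N.V)
  D := fun v => by
    refine tens_ext (f := -(SD.tD X.N Y.N)) (g := SD.tD X.N.sh Y.N) (fun x y => ?_) v
    rw [LinearMap.neg_apply, SD.tD_tmul, SD.tD_tmul, SD.E_sh]
    change -(X.N.D x ⊗ₜ y + X.N.E x ⊗ₜ Y.N.D y) = (-X.N.D x) ⊗ₜ y + (-X.N.E x) ⊗ₜ Y.N.D y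
    rw [TensorProduct.neg_tmul, TensorProduct.neg_tmul]
    abel
  P := fun v => by
    refine tens_ext (f := LinearMap.id - SD.tP X.N Y.N) (g := SD.tP X.N.sh Y.N) (fun x y => ?_) v
    rw [LinearMap.sub_apply, SD.tP_tmul, SD.tP_tmul]
    change x ⊗ₜ y - (X.N.P x ⊗ₜ Y.N.P y + (x - X.N.P x) ⊗ₜ (y - Y.N.P y)) =
      (x - X.N.P x) ⊗ₜ Y.N.P y + (x - (x - X.N.P x)) ⊗ₜ (y - Y.N.P y)
    simp only [TensorProduct.sub_tmul, TensorProduct.tmul_sub]
    abel
  isHom := ⟨fun t v => by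
    refine out_ext (A := A) (B := B) (X := X.N) (Y := Y.N) (Z := X.N.tens Y.N)
      (f := (X.b.out Y.b).l.act ∘ₗ (A.toSD.tens B.toSD).E)
      (g := (X.b.sh.out Y.b).l.act) (fun a b x y => ?_) t v
    have hEt : (A.toSD.tens B.toSD).E (a ⊗ₜ b) = A.E a ⊗ₜ B.E b := SD.tens_E _ _ a b
    change (X.b.out Y.b).l.act ((A.toSD.tens B.toSD).E (a ⊗ₜ b)) (x ⊗ₜ y : X.N.V ⊗[k] Y.N.V) =
      X.b.l.act (A.E a) x ⊗ₜ Y.b.l.act (B.P b) y +
        X.b.l.act (A.E a) (X.N.sh.E x) ⊗ₜ Y.b.l.act (b - B.P b) y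
    rw [hEt, out_l, SD.E_sh, B.PE, SD.E_apply B.toSD b]
    simp only [map_sub, map_add, map_neg, LinearMap.sub_apply,
      LinearMap.add_apply, TensorProduct.tmul_sub, TensorProduct.tmul_add,
      TensorProduct.neg_tmul]
    abel, fun v t => rfl⟩

/-- the isomorphism `(X ⊗ Y)[1] = X ⊗ Y[1]` -/
def outShR (X : BMod A A') (Y : BMod B B') : BMod.Hom (X.out Y).sh (X.out Y.sh) where
  f := (TensorProduct.map X.N.E LinearMap.id : X.N.V ⊗[k] Y.N.V →ₗ[k] X.N.V ⊗[k] Y.N.V)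
  D := fun v => by
    refine tens_ext (f := TensorProduct.map X.N.E LinearMap.id ∘ₗ (-(SD.tD X.N Y.N)))
      (g := SD.tD X.N Y.N.sh ∘ₗ TensorProduct.map X.N.E LinearMap.id) (fun x y => ?_) v
    rw [LinearMap.comp_apply, LinearMap.comp_apply, LinearMap.neg_apply, SD.tD_tmul,
      TensorProduct.map_tmul, SD.tD_tmul]
    change TensorProduct.map X.N.E LinearMap.id (-(X.N.D x ⊗ₜ y + X.N.E x ⊗ₜ Y.N.D y)) =
      X.N.D (X.N.E x) ⊗ₜ y + X.N.E (X.N.E x) ⊗ₜ (-Y.N.D y)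
    rw [map_neg, map_add, TensorProduct.map_tmul, TensorProduct.map_tmul, X.N.EE, X.N.DE,
      TensorProduct.neg_tmul, TensorProduct.tmul_neg]
    simp only [LinearMap.id_apply]
    abel
  P := fun v => by
    refine tens_ext (X := X.N.V) (Y := Y.N.V) (Z := X.N.V ⊗[k] Y.N.V)
      (f := TensorProduct.map X.N.E LinearMap.id ∘ₗ
        ((LinearMap.id : X.N.V ⊗[k] Y.N.V →ₗ[k] X.N.V ⊗[k] Y.N.V) - SD.tP X.N Y.N))
      (g := SD.tP X.N Y.N.sh ∘ₗ (TensorProduct.map X.N.E LinearMap.id :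
        X.N.V ⊗[k] Y.N.V →ₗ[k] X.N.V ⊗[k] Y.N.V)) (fun x y => ?_) v
    change TensorProduct.map X.N.E LinearMap.id
        (x ⊗ₜ y - (X.N.P x ⊗ₜ Y.N.P y + (x - X.N.P x) ⊗ₜ (y - Y.N.P y))) =
      X.N.P (X.N.E x) ⊗ₜ (y - Y.N.P y) + (X.N.E x - X.N.P (X.N.E x)) ⊗ₜ (y - (y - Y.N.P y))
    rw [X.N.PE]
    simp only [map_sub, map_add, TensorProduct.map_tmul, LinearMap.id_apply, X.N.EP,
      TensorProduct.sub_tmul, TensorProduct.tmul_sub]
    abel
  isHom := ⟨fun t v => by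
    refine out_ext (A := A) (B := B) (X := X.N) (Y := Y.N) (Z := X.N.tens Y.N)
      (f := ((X.b.out Y.b).l.act ∘ₗ (A.toSD.tens B.toSD).E).compr₂
        (TensorProduct.map X.N.E LinearMap.id))
      (g := (X.b.out Y.b.sh).l.act.compl₂ (TensorProduct.map X.N.E LinearMap.id))
      (fun a b x y => ?_) t v
    have hEt : (A.toSD.tens B.toSD).E (a ⊗ₜ b) = A.E a ⊗ₜ B.E b := SD.tens_E _ _ a b
    change TensorProduct.map X.N.E LinearMap.id
      ((X.b.out Y.b).l.act ((A.toSD.tens B.toSD).E (a ⊗ₜ b)) (x ⊗ₜ y : X.N.V ⊗[k] Y.N.V)) =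
      X.b.l.act a (X.N.E x) ⊗ₜ Y.b.l.act (B.E (B.P b)) y +
        X.b.l.act a (X.N.E (X.N.E x)) ⊗ₜ Y.b.l.act (B.E (b - B.P b)) y
    rw [hEt, out_l, map_add, TensorProduct.map_tmul, TensorProduct.map_tmul, B.PE,
      X.b.l.E_act, X.b.l.E_act, A.EE, X.N.EE, B.EP, map_sub B.E, B.EP]
    rfl,
   fun v t => by
    refine out_ext (A := A') (B := B') (X := X.N) (Y := Y.N) (Z := X.N.tens Y.N)
      (f := (X.b.out Y.b).r.act.flip.compr₂ (TensorProduct.map X.N.E LinearMap.id))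
      (g := (X.b.out Y.b.sh).r.act.flip.compl₂ (TensorProduct.map X.N.E LinearMap.id))
      (fun a b x y => ?_) t v
    change TensorProduct.map X.N.E LinearMap.id ((X.b.out Y.b).r.act
      (x ⊗ₜ y : X.N.V ⊗[k] Y.N.V) (a ⊗ₜ b : A'.V ⊗[k] B'.V)) =
      X.b.r.act (X.N.E x) (A'.P a) ⊗ₜ Y.b.r.act y b +
        X.b.r.act (X.N.E x) (a - A'.P a) ⊗ₜ Y.b.r.act (Y.N.sh.E y) b
    rw [out_r, map_add, TensorProduct.map_tmul, TensorProduct.map_tmul, SD.E_sh,
      X.b.r.E_act, X.b.r.E_act, A'.EP, map_sub A'.E, A'.EP, SD.E_apply A'.toSD a]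
    simp only [LinearMap.id_apply, map_sub, map_add, map_neg, LinearMap.neg_apply,
      TensorProduct.sub_tmul, TensorProduct.add_tmul, TensorProduct.tmul_neg]
    abel⟩

theorem outShL_bij (X : BMod A A') (Y : BMod B B') : Function.Bijective (outShL X Y).f :=
  Function.bijective_id

theorem outShR_bij (X : BMod A A') (Y : BMod B B') : Function.Bijective (outShR X Y).f := by
  have h : ∀ v : X.N.V ⊗[k] Y.N.V, TensorProduct.map X.N.E LinearMap.id
      (TensorProduct.map X.N.E (LinearMap.id : Y.N.V →ₗ[k] Y.N.V) v) = v := by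
    intro v
    refine tens_ext (f := TensorProduct.map X.N.E (LinearMap.id : Y.N.V →ₗ[k] Y.N.V) ∘ₗ
      TensorProduct.map X.N.E (LinearMap.id : Y.N.V →ₗ[k] Y.N.V)) (g := LinearMap.id)
      (fun x y => ?_) v
    simp only [LinearMap.comp_apply, TensorProduct.map_tmul, LinearMap.id_apply, X.N.EE]
  exact (show Function.Involutive
    (TensorProduct.map X.N.E (LinearMap.id : Y.N.V →ₗ[k] Y.N.V)) from h).bijective

end

end NC
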